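import Pool.Agent.Lib_helper34.NF.Pos

/-!
# Weighted areas are constant, and the limit point is unique
-/

set_option autoImplicit false
set_option linter.unusedSectionVars false

namespace Pool.Agent.NF

open Set Filter Topology MeasureTheory ComplexConjugate

section

variable {ι J R : Type} [Fintype ι] [DecidableEq J] [DecidableEq R] [Fintype J] [Fintype R]
  {F : Flow ι J R} {ω : ι → ℂ}

/-- Kirchhoff weights -/
structure Kir (E : ι × Bool → J ⊕ R) (n : ι → ℝ) : Prop where
  sum : ∀ j : J, ∑ a ∈ Finset.univ.filter (fun a : ι × Bool => E a = Sum.inl j),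
      sg a.2 * n a.1 = 0
  leaf : ∀ a r, E a = Sum.inr r → n a.1 = 0

/-- area under a curve -/
noncomputable def ar (γ γx : ℝ → ℝ → ℂ) (t : ℝ) : ℝ :=
  (1 / 2 : ℝ) * ∫ x in (0 : ℝ)..1, (conj (γ t x) * γx t x).im

/-- area of the chords -/
noncomputable def Arh (E : ι × Bool → J ⊕ R) (n : ι → ℝ) (X : J ⊕ R → ℂ) : ℝ :=
  ∑ i, n i * ((1 / 2 : ℝ) * (conj (X (E (i, false))) * X (E (i, true))).im)

theorem hasDeriv_arctan {f : ℝ → ℂ} {f' w : ℂ} {s : Set ℝ} {x : ℝ}
    (h : HasDerivWithinAt f f' s x) (hw : ‖w‖ = 1) (h0 : (conj w * f x).re ≠ 0) :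
    HasDerivWithinAt (fun y => Real.arctan (slp w (f y)))
      (curv (f x) f' * ‖f x‖) s x := by
  have h1 := (hasDeriv_slp h hw h0).arctan
  refine h1.congr_deriv ?_
  have hf0 : f x ≠ 0 := by
    intro hf
    rw [hf, mul_zero, Complex.zero_re] at h0
    exact h0 rfl
  have hn : ‖f x‖ ≠ 0 := norm_ne_zero_iff.2 hf0
  have h2 : ‖f x‖ ^ 2 = (conj w * f x).re ^ 2 + (conj w * f x).im ^ 2 := by
    have h3 : ‖f x‖ = ‖conj w * f x‖ := by rw [norm_mul, Complex.norm_conj, hw, one_mul]
    rw [h3, Complex.sq_norm, Complex.normSq_apply]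
    ring
  unfold slp
  have h4 : 1 + ((conj w * f x).im / (conj w * f x).re) ^ 2 =
      ‖f x‖ ^ 2 / (conj w * f x).re ^ 2 := by
    rw [h2]
    field_simp
  rw [h4]
  field_simp

theorem Flow.Near.int_curv (hω : F.Cert ω) {t : ℝ} (ht : 0 < t) (h : F.Near ω t) (i : ι) :
    ∫ x in (0 : ℝ)..1, (conj (F.γt i t x) * F.γx i t x).im =
      -(Real.arctan (slp (ω i) (F.γx i t 1)) - Real.arctan (slp (ω i) (F.γx i t 0))) := by
  have c1 := slice (F.crv i).cx ht
  have c2 := slice (F.crv i).cxx ht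
  have hne : ∀ x ∈ Icc (0 : ℝ) 1, F.γx i t x ≠ 0 := fun x hx => (F.crv i).reg t x ht hx
  have ck : ContinuousOn (fun x => curv (F.γx i t x) (F.γxx i t x) * ‖F.γx i t x‖)
      (Icc (0 : ℝ) 1) := (cont_curv c1 c2 hne).mul c1.norm
  have hd : ∀ x ∈ Icc (0 : ℝ) 1, HasDerivWithinAt
      (fun y => Real.arctan (slp (ω i) (F.γx i t y)))
      (curv (F.γx i t x) (F.γxx i t x) * ‖F.γx i t x‖) (Icc (0 : ℝ) 1) x := fun x hx =>
    hasDeriv_arctan ((F.crv i).hxx t x ht hx) (hω.unit i) (h.re_pos i hx).ne'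
  have h1 : ∫ x in (0 : ℝ)..1, curv (F.γx i t x) (F.γxx i t x) * ‖F.γx i t x‖ =
      Real.arctan (slp (ω i) (F.γx i t 1)) - Real.arctan (slp (ω i) (F.γx i t 0)) := by
    refine intervalIntegral.integral_eq_sub_of_hasDerivAt_of_le zero_le_one
      (f := fun y => Real.arctan (slp (ω i) (F.γx i t y)))
      (fun x hx => (hd x hx).continuousWithinAt) ?_ ?_
    · intro x hx
      exact (hd x (Ioo_subset_Icc_self hx)).hasDerivAt (Icc_mem_nhds hx.1 hx.2)
    · apply ContinuousOn.intervalIntegrable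
      rw [uIcc_of_le zero_le_one]
      exact ck
  rw [← h1, ← intervalIntegral.integral_neg]
  refine intervalIntegral.integral_congr fun x hx => ?_
  rw [uIcc_of_le zero_le_one] at hx
  rw [F.motion i t x ht hx]
  set k := curv (F.γx i t x) (F.γxx i t x) with hk
  set p := F.γx i t x with hp
  have h6 : conj (((k : ℂ) * Complex.I + (F.lam i t x : ℂ)) * tau p) * p =
      ((k : ℂ) * (-Complex.I) + (F.lam i t x : ℂ)) * (conj (tau p) * p) := by
    rw [map_mul, map_add, map_mul, Complex.conj_ofReal, Complex.conj_I, Complex.conj_ofReal]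
    ring
  rw [h6, conj_tau_mul (hne x hx)]
  have h7 : (((k : ℂ) * (-Complex.I) + (F.lam i t x : ℂ)) * (‖p‖ : ℂ)).im = -(k * ‖p‖) := by
    simp
  exact h7

/-- the derivative of the weighted area vanishes -/
theorem Flow.Near.area_deriv (hω : F.Cert ω) {n : ι → ℝ} (hn : Kir F.ends n) {t : ℝ} (ht : 0 < t)
    (h : F.Near ω t) :
    HasDerivAt (fun s => ∑ i, n i * ar (F.γ i) (F.γx i) s) 0 t := by
  have h1 : ∀ i ∈ (Finset.univ : Finset ι), HasDerivAt
      (fun s => n i * ar (F.γ i) (F.γx i) s)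
      (n i * ((∫ x in (0 : ℝ)..1, (conj (F.γt i t x) * F.γx i t x).im) +
        (1 / 2 : ℝ) * ((conj (F.γ i t 1) * F.γt i t 1).im -
          (conj (F.γ i t 0) * F.γt i t 0).im))) t := fun i _ =>
    (aread_proof (F.γ i) (F.γx i) (F.γxx i) (F.γt i) (F.crv i) t ht).const_mul (n i)
  refine (HasDerivAt.fun_sum h1).congr_deriv ?_
  have h2 : ∀ i, n i * ((∫ x in (0 : ℝ)..1, (conj (F.γt i t x) * F.γx i t x).im) +
        (1 / 2 : ℝ) * ((conj (F.γ i t 1) * F.γt i t 1).im -
          (conj (F.γ i t 0) * F.γt i t 0).im)) =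
      -(n i * Real.arctan (slp (ω i) (F.γx i t 1)) - n i * Real.arctan (slp (ω i) (F.γx i t 0))) +
      (1 / 2 : ℝ) * (n i * (conj (F.γ i t 1) * F.γt i t 1).im -
        n i * (conj (F.γ i t 0) * F.γt i t 0).im) := by
    intro i
    rw [h.int_curv hω ht i]
    ring
  rw [Finset.sum_congr rfl fun i _ => h2 i, Finset.sum_add_distrib, Finset.sum_neg_distrib,
    ← Finset.mul_sum]
  have h3 := ends_sum F.ends (fun a => n a.1)
    (fun a => if (∃ r, F.ends a = Sum.inr r) then 0 else
      Real.arctan (slp (ω a.1) (F.γx a.1 t (par a.2)))) hn.sum (fun j a b ha hb => by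
        have e1 : ¬ ∃ r, F.ends a = Sum.inr r := by
          rintro ⟨r, hr⟩
          rw [ha] at hr
          exact Sum.inl_ne_inr hr
        have e2 : ¬ ∃ r, F.ends b = Sum.inr r := by
          rintro ⟨r, hr⟩
          rw [hb] at hr
          exact Sum.inl_ne_inr hr
        rw [if_neg e1, if_neg e2, h.slp_eq hω ht j ha hb]) (fun a r ha => by
          rw [hn.leaf a r ha, zero_mul])
  have h4 : ∀ a : ι × Bool, n a.1 * (if (∃ r, F.ends a = Sum.inr r) then 0 else
      Real.arctan (slp (ω a.1) (F.γx a.1 t (par a.2)))) =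
      n a.1 * Real.arctan (slp (ω a.1) (F.γx a.1 t (par a.2))) := by
    intro a
    split_ifs with hr
    · obtain ⟨r, hr⟩ := hr
      rw [hn.leaf a r hr, zero_mul, zero_mul]
    · rfl
  have h5 := ends_sum F.ends (fun a => n a.1)
    (fun a => (conj (F.γ a.1 t (par a.2)) * F.γt a.1 t (par a.2)).im) hn.sum
    (fun j a b ha hb => by
      have hab := ha.trans hb.symm
      rw [F.glue a b t ht hab, F.vel_eq a b t ht hab]) (fun a r ha => by
      rw [hn.leaf a r ha, zero_mul])
  have q1 : par true = 1 := by simp [par]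
  have q0 : par false = 0 := by simp [par]
  have h3' : ∑ i, (n i * Real.arctan (slp (ω i) (F.γx i t (par true))) -
      n i * Real.arctan (slp (ω i) (F.γx i t (par false)))) = 0 := by
    rw [← h3]
    exact Finset.sum_congr rfl fun i _ =>
      (congrArg₂ (· - ·) (h4 (i, true)) (h4 (i, false))).symm
  have h5' : ∑ i, (n i * (conj (F.γ i t (par true)) * F.γt i t (par true)).im -
      n i * (conj (F.γ i t (par false)) * F.γt i t (par false)).im) = 0 := h5
  rw [q1, q0] at h3' h5'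
  rw [h3', h5']
  norm_num

theorem Flow.Lim.area_const (h : F.Lim ω) {n : ι → ℝ} (hn : Kir F.ends n) :
    ∃ (T c : ℝ), ∀ t, T ≤ t → ∑ i, n i * ar (F.γ i) (F.γx i) t = c := by
  obtain ⟨T, hT, hnear⟩ := h.near
  refine ⟨T, ∑ i, n i * ar (F.γ i) (F.γx i) T, fun t ht => ?_⟩
  have h1 : ∀ s ∈ Icc T t, HasDerivAt (fun s => ∑ i, n i * ar (F.γ i) (F.γx i) s) 0 s :=
    fun s hs => (hnear s hs.1).area_deriv h.cert hn (hT.trans_le hs.1)
  refine constant_of_has_deriv_right_zero
    (f := fun s => ∑ i, n i * ar (F.γ i) (F.γx i) s) (a := T) (b := t)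
    (fun s hs => (h1 s hs).continuousAt.continuousWithinAt)
    (fun s hs => (h1 s (Ico_subset_Icc_self hs)).hasDerivWithinAt) t ⟨ht, le_refl _⟩

/-- the area of a curve is close to the area of its chord -/
theorem Flow.Good.ar_sub {c t : ℝ} (hω : F.Cert ω) (hc : 0 < c) (ht : 1 ≤ t)
    (h : F.Good ω c t) (i : ι) :
    |ar (F.γ i) (F.γx i) t - (1 / 2 : ℝ) * (conj (F.pos t (F.ends (i, false))) *
      F.pos t (F.ends (i, true))).im| ≤ c * F.Len 1 ^ 2 := by
  have ht0 : 0 < t := one_pos.trans_le ht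
  have c1 := slice (F.crv i).cx ht0
  have c0 : ContinuousOn (F.γ i t) (Icc (0 : ℝ) 1) := fun x hx =>
    ((F.crv i).hx t x ht0 hx).continuousWithinAt
  have e0 : F.pos t (F.ends (i, false)) = F.γ i t 0 := by
    rw [← F.pos_ends ht0 (i, false)]
    simp [par]
  have e1 : F.pos t (F.ends (i, true)) = F.γ i t 1 := by
    rw [← F.pos_ends ht0 (i, true)]
    simp [par]
  rw [e0, e1]
  have hI : ∀ {f : ℝ → ℝ}, ContinuousOn f (Icc (0 : ℝ) 1) → IntervalIntegrable f volume 0 1 := by
    intro f hf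
    apply ContinuousOn.intervalIntegrable
    rwa [uIcc_of_le zero_le_one]
  have hIC : IntervalIntegrable (fun x => F.γx i t x) volume 0 1 := by
    apply ContinuousOn.intervalIntegrable
    rwa [uIcc_of_le zero_le_one]
  -- the difference as an integral
  have h1 : (conj (F.γ i t 0) * F.γ i t 1).im =
      ∫ x in (0 : ℝ)..1, (conj (F.γ i t 0) * F.γx i t x).im := by
    have h2 := Complex.imCLM.intervalIntegral_comp_comm (hIC.const_mul (conj (F.γ i t 0)))
    simp only [Complex.imCLM_apply] at h2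
    rw [h2, intervalIntegral.integral_const_mul,
      ftc (fun x hx => (F.crv i).hx t x ht0 hx) c1 (le_refl _) zero_le_one (le_refl _), mul_sub,
      Complex.sub_im]
    have h3 : (conj (F.γ i t 0) * F.γ i t 0).im = 0 := by
      rw [mul_comm, Complex.mul_conj, Complex.ofReal_im]
    rw [h3, sub_zero]
  have i1 : IntervalIntegrable (fun x => (conj (F.γ i t x) * F.γx i t x).im) volume 0 1 :=
    hI (Complex.continuous_im.comp_continuousOn
      ((Complex.continuous_conj.comp_continuousOn c0).mul c1))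
  have i2 : IntervalIntegrable (fun x => (conj (F.γ i t 0) * F.γx i t x).im) volume 0 1 :=
    hI (Complex.continuous_im.comp_continuousOn
      ((continuousOn_const (c := conj (F.γ i t 0))).mul c1))
  have h4 : ar (F.γ i) (F.γx i) t - (1 / 2 : ℝ) * (conj (F.γ i t 0) * F.γ i t 1).im =
      (1 / 2 : ℝ) * ∫ x in (0 : ℝ)..1, (conj (F.γ i t x - F.γ i t 0) * F.γx i t x).im := by
    unfold ar
    rw [h1, ← mul_sub, ← intervalIntegral.integral_sub i1 i2]
    congr 1
    refine intervalIntegral.integral_congr fun x _ => ?_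
    rw [map_sub, sub_mul, Complex.sub_im]
  rw [h4]
  have hL0 := F.len_nonneg 1
  have hLt := F.len_anti one_pos ht
  -- pointwise bound
  have h5 : ∀ x ∈ Icc (0 : ℝ) 1, |(conj (F.γ i t x - F.γ i t 0) * F.γx i t x).im| ≤
      2 * c * F.Len 1 * ‖F.γx i t x‖ := by
    intro x hx
    obtain ⟨a0, ab⟩ := h.cone ht0 i hx
    obtain ⟨p0, pb⟩ := h i x hx
    set y := conj (ω i) * (F.γ i t x - F.γ i t 0) with hy
    set p := conj (ω i) * F.γx i t x with hp
    have h6 : conj (F.γ i t x - F.γ i t 0) * F.γx i t x = conj y * p := by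
      rw [hy, hp, map_mul, Complex.conj_conj]
      have : ω i * conj (F.γ i t x - F.γ i t 0) * (conj (ω i) * F.γx i t x) =
        (conj (ω i) * ω i) * (conj (F.γ i t x - F.γ i t 0) * F.γx i t x) := by ring
      rw [this, conj_mul_self_of_norm (hω.unit i), one_mul]
    have hyn : y.re ≤ F.Len 1 := by
      refine (Complex.re_le_norm y).trans ?_
      rw [hy, hω.norm_rot i]
      have h7 := ftc (fun x hx => (F.crv i).hx t x ht0 hx) c1 (le_refl (0 : ℝ)) hx.1 hx.2
      rw [← h7]
      refine (intervalIntegral.norm_integral_le_integral_norm hx.1).trans ?_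
      refine (intervalIntegral.integral_mono_interval (le_refl (0 : ℝ)) hx.1 hx.2
        (Eventually.of_forall fun x => norm_nonneg _) (hI c1.norm)).trans ?_
      exact (F.len_i_le i).trans hLt
    have hpn : p.re ≤ ‖F.γx i t x‖ := by
      refine (Complex.re_le_norm p).trans (le_of_eq ?_)
      rw [hp, hω.norm_rot i]
    rw [h6, Complex.mul_im, Complex.conj_re, Complex.conj_im]
    have h8 : |y.re * p.im| ≤ c * F.Len 1 * ‖F.γx i t x‖ := by
      rw [abs_mul, abs_of_nonneg a0]
      calc y.re * |p.im| ≤ y.re * (c * p.re) := mul_le_mul_of_nonneg_left pb a0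
        _ = c * (y.re * p.re) := by ring
        _ ≤ c * (F.Len 1 * ‖F.γx i t x‖) :=
            mul_le_mul_of_nonneg_left (mul_le_mul hyn hpn p0 hL0) hc.le
        _ = _ := by ring
    have h9 : |-y.im * p.re| ≤ c * F.Len 1 * ‖F.γx i t x‖ := by
      rw [abs_mul, abs_neg, abs_of_nonneg p0]
      calc |y.im| * p.re ≤ (c * y.re) * p.re := mul_le_mul_of_nonneg_right ab p0
        _ = c * (y.re * p.re) := by ring
        _ ≤ c * (F.Len 1 * ‖F.γx i t x‖) :=
            mul_le_mul_of_nonneg_left (mul_le_mul hyn hpn p0 hL0) hc.le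
        _ = _ := by ring
    calc |y.re * p.im + -y.im * p.re| ≤ |y.re * p.im| + |-y.im * p.re| := abs_add_le _ _
      _ ≤ _ := by linarith
  have c3 : ContinuousOn (fun x => (conj (F.γ i t x - F.γ i t 0) * F.γx i t x).im)
      (Icc (0 : ℝ) 1) := Complex.continuous_im.comp_continuousOn
        ((Complex.continuous_conj.comp_continuousOn (c0.sub continuousOn_const)).mul c1)
  rw [abs_mul, abs_of_pos (by norm_num : (0 : ℝ) < 1 / 2)]
  calc (1 / 2 : ℝ) * |∫ x in (0 : ℝ)..1, (conj (F.γ i t x - F.γ i t 0) * F.γx i t x).im|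
      ≤ 1 / 2 * ∫ x in (0 : ℝ)..1, |(conj (F.γ i t x - F.γ i t 0) * F.γx i t x).im| :=
        mul_le_mul_of_nonneg_left (intervalIntegral.abs_integral_le_integral_abs zero_le_one)
          (by norm_num)
    _ ≤ 1 / 2 * ∫ x in (0 : ℝ)..1, 2 * c * F.Len 1 * ‖F.γx i t x‖ :=
        mul_le_mul_of_nonneg_left (intervalIntegral.integral_mono_on zero_le_one (hI c3.abs)
          ((hI c1.norm).const_mul _) h5) (by norm_num)
    _ = c * F.Len 1 * ∫ x in (0 : ℝ)..1, ‖F.γx i t x‖ := by
        rw [intervalIntegral.integral_const_mul]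
        ring
    _ ≤ c * F.Len 1 * F.Len 1 :=
        mul_le_mul_of_nonneg_left ((F.len_i_le i).trans hLt) (mul_nonneg hc.le hL0)
    _ = _ := by ring

theorem Flow.Lim.arh_conv (h : F.Lim ω) {n : ι → ℝ} (hn : Kir F.ends n) :
    ∃ c : ℝ, Tendsto (fun t => Arh F.ends n (F.pos t)) atTop (𝓝 c) := by
  obtain ⟨T₀, c₀, hc₀⟩ := h.area_const hn
  refine ⟨c₀, ?_⟩
  rw [Metric.tendsto_atTop]
  intro ε hε
  set S := ∑ i, |n i| with hS
  have hS0 : 0 ≤ S := Finset.sum_nonneg fun _ _ => abs_nonneg _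
  set L := F.Len 1 with hL
  set c := ε / (2 * (S * L ^ 2 + 1)) with hc
  have hcp : 0 < c := by positivity
  obtain ⟨T₁, hT₁, hgood⟩ := h.good c hcp
  refine ⟨max (max T₀ T₁) 1, fun t ht => ?_⟩
  have t0 : T₀ ≤ t := ((le_max_left _ _).trans (le_max_left _ _)).trans ht
  have t1 : T₁ ≤ t := ((le_max_right _ _).trans (le_max_left _ _)).trans ht
  have t2 : 1 ≤ t := (le_max_right _ _).trans ht
  rw [Real.dist_eq, ← hc₀ t t0]
  unfold Arh
  rw [← Finset.sum_sub_distrib]
  calc |∑ i, (n i * ((1 / 2 : ℝ) * (conj (F.pos t (F.ends (i, false))) *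
        F.pos t (F.ends (i, true))).im) - n i * ar (F.γ i) (F.γx i) t)|
      ≤ ∑ i, |n i * ((1 / 2 : ℝ) * (conj (F.pos t (F.ends (i, false))) *
        F.pos t (F.ends (i, true))).im) - n i * ar (F.γ i) (F.γx i) t| :=
        Finset.abs_sum_le_sum_abs _ _
    _ ≤ ∑ i, |n i| * (c * L ^ 2) := by
        refine Finset.sum_le_sum fun i _ => ?_
        rw [← mul_sub, abs_mul, abs_sub_comm]
        exact mul_le_mul_of_nonneg_left ((hgood t t1).ar_sub h.cert hcp t2 i) (abs_nonneg _)
    _ = c * (S * L ^ 2) := by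
        rw [← Finset.sum_mul]
        ring
    _ < ε := by
        rw [hc, div_mul_eq_mul_div, div_lt_iff₀ (by positivity)]
        have : 0 ≤ S * L ^ 2 := by positivity
        nlinarith

end

end Pool.Agent.NF
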