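import Pool.Agent.Lib_helper34.NF.Len

/-!
# The limit directions
-/

set_option autoImplicit false
set_option linter.unusedSectionVars false

namespace Pool.Agent.NF

open Set Filter Topology MeasureTheory ComplexConjugate

/-- restriction of a jointly continuous function to one time -/
theorem slice {E : Type*} [TopologicalSpace E] {f : ℝ → ℝ → E}
    (h : ContinuousOn (fun z : ℝ × ℝ => f z.1 z.2) (Ioi (0 : ℝ) ×ˢ Icc (0 : ℝ) 1)) {t : ℝ}
    (ht : 0 < t) : ContinuousOn (f t) (Icc (0 : ℝ) 1) := by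
  have h1 : ContinuousOn (fun x : ℝ => ((t, x) : ℝ × ℝ)) (Icc (0 : ℝ) 1) :=
    (continuous_const.prodMk continuous_id).continuousOn
  exact h.comp h1 (fun x hx => mk_mem_prod (mem_Ioi.2 ht) hx)

/-- restriction of a jointly continuous function to one parameter -/
theorem slice' {E : Type*} [TopologicalSpace E] {f : ℝ → ℝ → E}
    (h : ContinuousOn (fun z : ℝ × ℝ => f z.1 z.2) (Ioi (0 : ℝ) ×ˢ Icc (0 : ℝ) 1)) {x : ℝ}
    (hx : x ∈ Icc (0 : ℝ) 1) : ContinuousOn (fun t => f t x) (Ioi (0 : ℝ)) := by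
  have h1 : ContinuousOn (fun t : ℝ => ((t, x) : ℝ × ℝ)) (Ioi (0 : ℝ)) :=
    (continuous_id.prodMk continuous_const).continuousOn
  exact h.comp h1 (fun t ht => mk_mem_prod ht hx)

theorem ftc {f f' : ℝ → ℂ} (h : ∀ x ∈ Icc (0 : ℝ) 1, HasDerivWithinAt f (f' x) (Icc (0 : ℝ) 1) x)
    (hc : ContinuousOn f' (Icc (0 : ℝ) 1)) {x y : ℝ} (hx : 0 ≤ x) (hxy : x ≤ y) (hy : y ≤ 1) :
    ∫ z in x..y, f' z = f y - f x := by
  refine intervalIntegral.integral_eq_sub_of_hasDerivAt_of_le hxy ?_ ?_ ?_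
  · intro z hz
    exact ((h z ⟨hx.trans hz.1, hz.2.trans hy⟩).continuousWithinAt).mono
      (Icc_subset_Icc hx hy)
  · intro z hz
    have hz1 : z ∈ Icc (0 : ℝ) 1 := ⟨hx.trans hz.1.le, hz.2.le.trans hy⟩
    exact (h z hz1).hasDerivAt (Icc_mem_nhds (hx.trans_lt hz.1) (hz.2.trans_le hy))
  · exact (hc.mono (by
      rw [uIcc_of_le hxy]
      exact Icc_subset_Icc hx hy)).intervalIntegrable

theorem par_mem (b : Bool) : par b ∈ Icc (0 : ℝ) 1 := by
  unfold par
  split_ifs <;> simp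

section

variable {ι J R : Type} [Fintype ι] [DecidableEq J] [DecidableEq R] [Fintype J] [Fintype R]
  (F : Flow ι J R)

theorem Flow.cont_tau (i : ι) {t : ℝ} (ht : 0 < t) :
    ContinuousOn (fun x => tau (F.γx i t x)) (Icc (0 : ℝ) 1) :=
  NF.cont_tau (slice (F.crv i).cx ht) (fun x hx => (F.crv i).reg t x ht hx)

theorem Flow.osc_le (i : ι) {t : ℝ} (ht : 0 < t) {ε : ℝ} (hε : 0 < ε) {x y : ℝ} (hx : 0 ≤ x)
    (hxy : x ≤ y) (hy : y ≤ 1) :
    ‖tau (F.γx i t y) - tau (F.γx i t x)‖ ≤ F.Dis t / (2 * ε) + ε / 2 * F.Len t := by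
  have c1 := slice (F.crv i).cx ht
  have c2 := slice (F.crv i).cxx ht
  have hne : ∀ x ∈ Icc (0 : ℝ) 1, F.γx i t x ≠ 0 := fun x hx => (F.crv i).reg t x ht hx
  have ck : ContinuousOn (fun x => curv (F.γx i t x) (F.γxx i t x)) (Icc (0 : ℝ) 1) :=
    cont_curv c1 c2 hne
  have cf : ContinuousOn (fun x => (curv (F.γx i t x) (F.γxx i t x) : ℂ) * Complex.I *
      F.γx i t x) (Icc (0 : ℝ) 1) :=
    ((Complex.continuous_ofReal.comp_continuousOn ck).mul continuousOn_const).mul c1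
  have h1 := ftc (f := fun x => tau (F.γx i t x)) (f' := fun x =>
    (curv (F.γx i t x) (F.γxx i t x) : ℂ) * Complex.I * F.γx i t x)
    (fun x hx => hasDeriv_tau ((F.crv i).hxx t x ht hx) (hne x hx)) cf hx hxy hy
  rw [← h1]
  refine (intervalIntegral.norm_integral_le_integral_norm hxy).trans ?_
  have h01 : uIcc (0 : ℝ) 1 = Icc 0 1 := uIcc_of_le zero_le_one
  have i1 : IntervalIntegrable (fun x => ‖(curv (F.γx i t x) (F.γxx i t x) : ℂ) * Complex.I *
      F.γx i t x‖) volume 0 1 := by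
    apply ContinuousOn.intervalIntegrable
    rw [h01]
    exact cf.norm
  have h2 : ∫ x in x..y, ‖(curv (F.γx i t x) (F.γxx i t x) : ℂ) * Complex.I * F.γx i t x‖ ≤
      ∫ x in (0 : ℝ)..1, ‖(curv (F.γx i t x) (F.γxx i t x) : ℂ) * Complex.I * F.γx i t x‖ := by
    refine intervalIntegral.integral_mono_interval hx hxy hy ?_ i1
    exact Eventually.of_forall fun x => norm_nonneg _
  refine h2.trans ?_
  have i2 : IntervalIntegrable (fun x => curv (F.γx i t x) (F.γxx i t x) ^ 2 * ‖F.γx i t x‖)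
      volume 0 1 := by
    apply ContinuousOn.intervalIntegrable
    rw [h01]
    exact (ck.pow 2).mul c1.norm
  have i3 : IntervalIntegrable (fun x => ‖F.γx i t x‖) volume 0 1 := by
    apply ContinuousOn.intervalIntegrable
    rw [h01]
    exact c1.norm
  have h3 : ∫ x in (0 : ℝ)..1, ‖(curv (F.γx i t x) (F.γxx i t x) : ℂ) * Complex.I *
      F.γx i t x‖ ≤ ∫ x in (0 : ℝ)..1,
        (1 / (2 * ε) * (curv (F.γx i t x) (F.γxx i t x) ^ 2 * ‖F.γx i t x‖) +
          ε / 2 * ‖F.γx i t x‖) := by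
    refine intervalIntegral.integral_mono_on zero_le_one i1
      ((i2.const_mul _).add (i3.const_mul _)) fun x _ => ?_
    rw [norm_mul, norm_mul, Complex.norm_I, mul_one, Complex.norm_real, Real.norm_eq_abs]
    have h4 : |curv (F.γx i t x) (F.γxx i t x)| ≤
        1 / (2 * ε) * curv (F.γx i t x) (F.γxx i t x) ^ 2 + ε / 2 := by
      set k := curv (F.γx i t x) (F.γxx i t x)
      have h5 : 0 ≤ (|k| - ε) ^ 2 := sq_nonneg _
      have h6 : |k| ^ 2 = k ^ 2 := sq_abs k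
      have h7 : 1 / (2 * ε) * k ^ 2 + ε / 2 - |k| = (|k| - ε) ^ 2 / (2 * ε) := by
        rw [← h6]
        field_simp
        ring
      have h8 : 0 ≤ (|k| - ε) ^ 2 / (2 * ε) := by positivity
      linarith
    calc |curv (F.γx i t x) (F.γxx i t x)| * ‖F.γx i t x‖ ≤
          (1 / (2 * ε) * curv (F.γx i t x) (F.γxx i t x) ^ 2 + ε / 2) * ‖F.γx i t x‖ :=
          mul_le_mul_of_nonneg_right h4 (norm_nonneg _)
      _ = _ := by ring
  refine h3.trans ?_
  rw [intervalIntegral.integral_add (i2.const_mul _) (i3.const_mul _),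
    intervalIntegral.integral_const_mul, intervalIntegral.integral_const_mul]
  have h5 : ∫ x in (0 : ℝ)..1, curv (F.γx i t x) (F.γxx i t x) ^ 2 * ‖F.γx i t x‖ ≤ F.Dis t := by
    unfold Flow.Dis
    refine Finset.single_le_sum (f := fun i => ∫ x in (0 : ℝ)..1,
      curv (F.γx i t x) (F.γxx i t x) ^ 2 * ‖F.γx i t x‖) (fun i _ => ?_) (Finset.mem_univ i)
    refine intervalIntegral.integral_nonneg zero_le_one fun x _ => ?_
    positivity
  have h6 : ∫ x in (0 : ℝ)..1, ‖F.γx i t x‖ ≤ F.Len t := by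
    unfold Flow.Len
    refine Finset.single_le_sum (f := fun i => ∫ x in (0 : ℝ)..1, ‖F.γx i t x‖)
      (fun i _ => ?_) (Finset.mem_univ i)
    exact intervalIntegral.integral_nonneg zero_le_one fun x _ => norm_nonneg _
  have h7 : F.Dis t / (2 * ε) = 1 / (2 * ε) * F.Dis t := by ring
  rw [h7]
  exact add_le_add (mul_le_mul_of_nonneg_left h5 (by positivity))
    (mul_le_mul_of_nonneg_left h6 (by positivity))

theorem Flow.small_osc (δ : ℝ) (hδ : 0 < δ) (T : ℝ) (hT : 0 < T) :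
    ∃ t, T ≤ t ∧ ∀ i, ∀ x ∈ Icc (0 : ℝ) 1, ∀ y ∈ Icc (0 : ℝ) 1,
      ‖tau (F.γx i t y) - tau (F.γx i t x)‖ < δ := by
  have hL := F.len_nonneg T
  set ε := δ / (F.Len T + 1) with hε
  have hε0 : 0 < ε := by positivity
  obtain ⟨t, ht, hD⟩ := F.good_time (ε * δ / 2) (by positivity) T hT
  have ht0 : 0 < t := hT.trans_le ht
  refine ⟨t, ht, fun i x hx y hy => ?_⟩
  have key : F.Dis t / (2 * ε) + ε / 2 * F.Len t < δ := by
    have h1 : F.Dis t / (2 * ε) < δ / 4 := by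
      rw [div_lt_iff₀ (by positivity)]
      calc F.Dis t < ε * δ / 2 := hD
        _ = δ / 4 * (2 * ε) := by ring
    have h2 : ε / 2 * F.Len t ≤ δ / 2 := by
      have h3 := F.len_anti hT ht
      calc ε / 2 * F.Len t ≤ ε / 2 * (F.Len T + 1) :=
            mul_le_mul_of_nonneg_left (by linarith) (by positivity)
        _ = δ / 2 := by
            rw [hε]
            field_simp
    linarith
  rcases le_total x y with hxy | hxy
  · exact (F.osc_le i ht0 hε0 hx.1 hxy hy.2).trans_lt key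
  · rw [norm_sub_rev]
    exact (F.osc_le i ht0 hε0 hy.1 hxy hx.2).trans_lt key

/-- the limit directions -/
theorem Flow.exists_dir : ∃ ω : ι → ℂ, (∀ i, ‖ω i‖ = 1) ∧
    (∀ j : J, ∑ a ∈ Finset.univ.filter (fun a : ι × Bool => F.ends a = Sum.inl j),
      (sg a.2 : ℂ) * ω a.1 = 0) ∧
    ∀ δ : ℝ, 0 < δ → ∀ T : ℝ, ∃ t, T ≤ t ∧ 0 < t ∧ ∀ i, ∀ x ∈ Icc (0 : ℝ) 1,
      ‖tau (F.γx i t x) - ω i‖ < δ := by
  have h1 : ∀ n : ℕ, ∃ t, (n : ℝ) + 1 ≤ t ∧ ∀ i, ∀ x ∈ Icc (0 : ℝ) 1, ∀ y ∈ Icc (0 : ℝ) 1,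
      ‖tau (F.γx i t y) - tau (F.γx i t x)‖ < 1 / ((n : ℝ) + 1) := fun n =>
    F.small_osc _ (by positivity) _ (by positivity)
  choose t ht hosc using h1
  have ht0 : ∀ n, 0 < t n := fun n => lt_of_lt_of_le (by positivity) (ht n)
  have h0mem : (0 : ℝ) ∈ Icc (0 : ℝ) 1 := ⟨le_refl _, zero_le_one⟩
  have hunit : ∀ n i, ‖tau (F.γx i (t n) 0)‖ = 1 := fun n i =>
    norm_tau ((F.crv i).reg (t n) 0 (ht0 n) h0mem)
  obtain ⟨ω, -, φ, hφ, hlim⟩ := tendsto_subseq_of_bounded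
    (Metric.isBounded_closedBall (x := (0 : ι → ℂ)) (r := 1))
    (x := fun n => fun i => tau (F.γx i (t n) 0)) (fun n => by
      rw [mem_closedBall_zero_iff, pi_norm_le_iff_of_nonneg zero_le_one]
      exact fun i => (hunit n i).le)
  have hlim' : ∀ i, Tendsto (fun n => tau (F.γx i (t (φ n)) 0)) atTop (𝓝 (ω i)) := fun i =>
    (tendsto_pi_nhds.1 hlim) i
  have hinv : Tendsto (fun n : ℕ => 1 / ((φ n : ℝ) + 1)) atTop (𝓝 0) :=
    (tendsto_one_div_add_atTop_nhds_zero_nat (𝕜 := ℝ)).comp hφ.tendsto_atTop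
  have hend : ∀ i, ∀ x ∈ Icc (0 : ℝ) 1,
      Tendsto (fun n => tau (F.γx i (t (φ n)) x)) atTop (𝓝 (ω i)) := by
    intro i x hx
    have h2 : Tendsto (fun n => tau (F.γx i (t (φ n)) x) - tau (F.γx i (t (φ n)) 0)) atTop
        (𝓝 0) := by
      apply squeeze_zero_norm (fun n => (hosc (φ n) i 0 h0mem x hx).le) hinv
    have h3 := h2.add (hlim' i)
    rw [zero_add] at h3
    refine h3.congr fun n => ?_
    rw [sub_add_cancel]
  refine ⟨ω, fun i => ?_, fun j => ?_, fun δ hδ T => ?_⟩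
  · have h2 := (hlim' i).norm
    have h3 : Tendsto (fun n => ‖tau (F.γx i (t (φ n)) 0)‖) atTop (𝓝 1) := by
      refine tendsto_const_nhds.congr fun n => ?_
      rw [hunit]
    exact tendsto_nhds_unique h2 h3
  · have h2 : Tendsto (fun n => ∑ a ∈ Finset.univ.filter
        (fun a : ι × Bool => F.ends a = Sum.inl j),
        (sg a.2 : ℂ) * tau (F.γx a.1 (t (φ n)) (par a.2))) atTop
        (𝓝 (∑ a ∈ Finset.univ.filter (fun a : ι × Bool => F.ends a = Sum.inl j),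
          (sg a.2 : ℂ) * ω a.1)) := by
      refine tendsto_finsetSum _ fun a _ => ?_
      exact (hend a.1 (par a.2) (par_mem a.2)).const_mul _
    have h3 : Tendsto (fun n => ∑ a ∈ Finset.univ.filter
        (fun a : ι × Bool => F.ends a = Sum.inl j),
        (sg a.2 : ℂ) * tau (F.γx a.1 (t (φ n)) (par a.2))) atTop (𝓝 0) := by
      refine tendsto_const_nhds.congr fun n => ?_
      rw [F.angle j (t (φ n)) (ht0 _)]
    exact tendsto_nhds_unique h2 h3
  · have h2 : ∀ᶠ n in atTop, ∀ i, ‖tau (F.γx i (t (φ n)) 0) - ω i‖ < δ / 2 := by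
      rw [eventually_all]
      intro i
      have h3 := (hlim' i).sub_const (ω i)
      rw [sub_self] at h3
      have h4 := h3.norm
      rw [norm_zero] at h4
      exact h4.eventually (gt_mem_nhds (by positivity))
    have h3 : ∀ᶠ n in atTop, 1 / ((φ n : ℝ) + 1) < δ / 2 :=
      hinv.eventually (gt_mem_nhds (by positivity))
    have h4 : ∀ᶠ n in atTop, T ≤ t (φ n) := by
      obtain ⟨N, hN⟩ := exists_nat_ge T
      filter_upwards [eventually_ge_atTop N] with n hn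
      have h5 : (N : ℝ) ≤ (φ n : ℝ) := by exact_mod_cast hn.trans (hφ.id_le n)
      have h6 := ht (φ n)
      linarith
    obtain ⟨n, hn1, hn2, hn3⟩ := (h2.and (h3.and h4)).exists
    refine ⟨t (φ n), hn3, ht0 _, fun i x hx => ?_⟩
    calc ‖tau (F.γx i (t (φ n)) x) - ω i‖
        = ‖(tau (F.γx i (t (φ n)) x) - tau (F.γx i (t (φ n)) 0)) +
          (tau (F.γx i (t (φ n)) 0) - ω i)‖ := by rw [sub_add_sub_cancel]
      _ ≤ ‖tau (F.γx i (t (φ n)) x) - tau (F.γx i (t (φ n)) 0)‖ +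
          ‖tau (F.γx i (t (φ n)) 0) - ω i‖ := norm_add_le _ _
      _ < δ / 2 + δ / 2 := add_lt_add ((hosc (φ n) i 0 h0mem x hx).trans hn2) (hn1 i)
      _ = δ := by ring

end

end Pool.Agent.NF
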