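import Pool.Agent.Lib_helper34.NF.Conv
import Pool.Agent.Lib_helper72.NF.REPAR
import Pool.Agent.Lib_helper34.NF.Dir

/-!
# Convergence of one curve
-/

set_option autoImplicit false

namespace Pool.Agent.NF

open Set Filter Topology MeasureTheory ComplexConjugate

theorem cc (γ γx γxx γt : ℝ → ℝ → ℂ) (h : Crv γ γx γxx γt) (w A B : ℂ) (hw : ‖w‖ = 1)
    (hdir : ∀ δ : ℝ, 0 < δ → ∃ T : ℝ, ∀ t, T ≤ t → ∀ x ∈ Icc (0 : ℝ) 1, ‖tau (γx t x) - w‖ < δ)
    (hA : Tendsto (fun t => γ t 0) atTop (𝓝 A)) (hB : Tendsto (fun t => γ t 1) atTop (𝓝 B)) :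
    B - A = (‖B - A‖ : ℂ) * w ∧
    Tendsto (fun t => ∫ x in (0 : ℝ)..1, ‖γx t x‖) atTop (𝓝 ‖B - A‖) ∧ C1Conv γ A B := by
  have hI : ∀ t, 0 < t → IntervalIntegrable (fun x => ‖γx t x‖) volume 0 1 := by
    intro t ht
    apply ContinuousOn.intervalIntegrable
    rw [uIcc_of_le zero_le_one]
    exact (slice h.cx ht).norm
  have hIC : ∀ t, 0 < t → IntervalIntegrable (fun x => γx t x) volume 0 1 := by
    intro t ht
    apply ContinuousOn.intervalIntegrable
    rw [uIcc_of_le zero_le_one]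
    exact slice h.cx ht
  set L : ℝ → ℝ := fun t => ∫ x in (0 : ℝ)..1, ‖γx t x‖ with hL
  have hL0 : ∀ t, 0 ≤ L t := fun t =>
    intervalIntegral.integral_nonneg zero_le_one fun x _ => norm_nonneg _
  -- the chord is close to L w
  have hch : ∀ δ : ℝ, 0 < δ → ∃ T : ℝ, 0 < T ∧ ∀ t, T ≤ t →
      ‖(γ t 1 - γ t 0) - (L t : ℂ) * w‖ ≤ δ * L t := by
    intro δ hδ
    obtain ⟨T, hT⟩ := hdir δ hδ
    refine ⟨max T 1, by positivity, fun t ht => ?_⟩
    have ht0 : 0 < t := one_pos.trans_le ((le_max_right _ _).trans ht)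
    have htT : T ≤ t := (le_max_left _ _).trans ht
    have e1 : γ t 1 - γ t 0 = ∫ x in (0 : ℝ)..1, γx t x :=
      (ftc (fun x hx => h.hx t x ht0 hx) (slice h.cx ht0) (le_refl _) zero_le_one (le_refl _)).symm
    have e2 : (L t : ℂ) * w = ∫ x in (0 : ℝ)..1, (‖γx t x‖ : ℂ) * w := by
      rw [intervalIntegral.integral_mul_const, hL]
      simp only
      rw [intervalIntegral.integral_ofReal]
    have i2 : IntervalIntegrable (fun x => (‖γx t x‖ : ℂ) * w) volume 0 1 := by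
      apply ContinuousOn.intervalIntegrable
      rw [uIcc_of_le zero_le_one]
      exact (Complex.continuous_ofReal.comp_continuousOn (slice h.cx ht0).norm).mul
        continuousOn_const
    rw [e1, e2, ← intervalIntegral.integral_sub (hIC t ht0) i2]
    calc ‖∫ x in (0 : ℝ)..1, (γx t x - (‖γx t x‖ : ℂ) * w)‖
        ≤ ∫ x in (0 : ℝ)..1, ‖γx t x - (‖γx t x‖ : ℂ) * w‖ :=
          intervalIntegral.norm_integral_le_integral_norm zero_le_one
      _ ≤ ∫ x in (0 : ℝ)..1, δ * ‖γx t x‖ := by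
          refine intervalIntegral.integral_mono_on zero_le_one ?_ ((hI t ht0).const_mul δ) ?_
          · exact ((hIC t ht0).sub i2).norm
          · intro x hx
            have h1 := hT t htT x hx
            have h2 : γx t x - (‖γx t x‖ : ℂ) * w = (‖γx t x‖ : ℂ) * (tau (γx t x) - w) := by
              rw [mul_sub, norm_mul_tau]
            rw [h2, norm_mul, Complex.norm_real, norm_norm, mul_comm δ]
            exact mul_le_mul_of_nonneg_left h1.le (norm_nonneg _)
      _ = δ * L t := intervalIntegral.integral_const_mul _ _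
  have hchord : Tendsto (fun t => γ t 1 - γ t 0) atTop (𝓝 (B - A)) := hB.sub hA
  -- L is eventually bounded
  obtain ⟨M, hM0, hM⟩ : ∃ M : ℝ, 0 < M ∧ ∀ᶠ t in atTop, L t ≤ M := by
    obtain ⟨T, hT0, hT⟩ := hch (1 / 2) (by norm_num)
    refine ⟨2 * (‖B - A‖ + 1), by positivity, ?_⟩
    have h1 : ∀ᶠ t in atTop, ‖γ t 1 - γ t 0‖ < ‖B - A‖ + 1 :=
      hchord.norm.eventually (gt_mem_nhds (by linarith))
    filter_upwards [h1, eventually_ge_atTop T] with t ht1 ht2
    have h2 := hT t ht2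
    have h3 : ‖(L t : ℂ) * w‖ = L t := by
      rw [norm_mul, hw, mul_one, Complex.norm_real, Real.norm_eq_abs, abs_of_nonneg (hL0 t)]
    have h4 : ‖(L t : ℂ) * w‖ ≤ ‖γ t 1 - γ t 0‖ + ‖(γ t 1 - γ t 0) - (L t : ℂ) * w‖ := by
      have h5 : (L t : ℂ) * w = (γ t 1 - γ t 0) - ((γ t 1 - γ t 0) - (L t : ℂ) * w) := by ring
      nth_rewrite 1 [h5]
      exact norm_sub_le _ _
    rw [h3] at h4
    linarith
  have hdiff : Tendsto (fun t => (γ t 1 - γ t 0) - (L t : ℂ) * w) atTop (𝓝 0) := by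
    rw [Metric.tendsto_atTop]
    intro ε hε
    obtain ⟨T, hT0, hT⟩ := hch (ε / (2 * M)) (by positivity)
    obtain ⟨T', hT'⟩ := eventually_atTop.1 hM
    refine ⟨max T T', fun t ht => ?_⟩
    rw [dist_zero_right]
    calc ‖(γ t 1 - γ t 0) - (L t : ℂ) * w‖ ≤ ε / (2 * M) * L t := hT t ((le_max_left _ _).trans ht)
      _ ≤ ε / (2 * M) * M :=
          mul_le_mul_of_nonneg_left (hT' t ((le_max_right _ _).trans ht)) (by positivity)
      _ = ε / 2 := by field_simp
      _ < ε := by linarith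
  have hLw : Tendsto (fun t => (L t : ℂ) * w) atTop (𝓝 (B - A)) := by
    have h1 := hchord.sub hdiff
    rw [sub_zero] at h1
    refine h1.congr fun t => ?_
    ring
  have hLlim : Tendsto L atTop (𝓝 ‖B - A‖) := by
    have h1 := hLw.norm
    refine h1.congr fun t => ?_
    rw [norm_mul, hw, mul_one, Complex.norm_real, Real.norm_eq_abs, abs_of_nonneg (hL0 t)]
  have hBA : B - A = (‖B - A‖ : ℂ) * w := by
    have h1 : Tendsto (fun t => (L t : ℂ) * w) atTop (𝓝 ((‖B - A‖ : ℂ) * w)) :=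
      (((Complex.continuous_ofReal.tendsto _).comp hLlim)).mul_const w
    exact tendsto_nhds_unique hLw h1
  refine ⟨hBA, hLlim, ?_⟩
  -- the reparametrisation
  have hrep : ∀ t : ℝ, ∃ φ φ' : ℝ → ℝ, 0 < t → Continuous φ' ∧ (∀ s, HasDerivAt φ (φ' s) s) ∧
      (∀ s, 0 < φ' s) ∧ φ 0 = 0 ∧ φ 1 = 1 ∧ (∀ s ∈ Icc (0 : ℝ) 1, φ s ∈ Icc (0 : ℝ) 1) ∧
      (∀ s ∈ Icc (0 : ℝ) 1, HasDerivWithinAt (fun s => γ t (φ s))
        (((∫ x in (0 : ℝ)..1, ‖γx t x‖ : ℝ) : ℂ) * tau (γx t (φ s))) (Icc (0 : ℝ) 1) s) := by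
    intro t
    by_cases ht : 0 < t
    · obtain ⟨φ, φ', h1⟩ := repar_proof (γ t) (γx t) (fun x hx => h.hx t x ht hx) (slice h.cx ht)
        (fun x hx => h.reg t x ht hx)
      exact ⟨φ, φ', fun _ => h1⟩
    · exact ⟨id, id, fun h => absurd h ht⟩
  choose φ φ' hφ using hrep
  refine ⟨φ, fun t s => (L t : ℂ) * tau (γx t (φ t s)), ?_, ?_, ?_⟩
  · intro t ht
    obtain ⟨a1, a2, a3, a4, a5, a6, a7⟩ := hφ t ht
    have hd : deriv (φ t) = φ' t := funext fun s => (a2 s).deriv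
    refine ⟨?_, fun s => ?_, a4, a5⟩
    · rw [contDiff_one_iff_deriv]
      exact ⟨fun s => (a2 s).differentiableAt, by rw [hd]; exact a1⟩
    · rw [hd]
      exact a3 s
  · intro t ht
    obtain ⟨a1, a2, a3, a4, a5, a6, a7⟩ := hφ t ht
    refine ⟨?_, a7⟩
    have hcφ : Continuous (φ t) := continuous_iff_continuousAt.2 fun s => (a2 s).continuousAt
    refine continuousOn_const.mul (cont_tau ((slice h.cx ht).comp hcφ.continuousOn a6)
      fun s hs => h.reg t _ ht (a6 s hs))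
  · intro ε hε
    -- uniform convergence of the derivative
    have hder : ∀ ε : ℝ, 0 < ε → ∃ T : ℝ, 0 < T ∧ ∀ t, T ≤ t → ∀ s ∈ Icc (0 : ℝ) 1,
        ‖(L t : ℂ) * tau (γx t (φ t s)) - (B - A)‖ < ε := by
      intro ε hε
      obtain ⟨T₁, hT₁⟩ := hdir (ε / (2 * M)) (by positivity)
      obtain ⟨T₂, hT₂⟩ := eventually_atTop.1 hM
      have h1 : ∀ᶠ t in atTop, ‖(L t : ℂ) * w - (B - A)‖ < ε / 2 := by
        have h2 := (hLw.sub_const (B - A)).norm
        rw [sub_self, norm_zero] at h2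
        exact h2.eventually (gt_mem_nhds (by positivity))
      obtain ⟨T₃, hT₃⟩ := eventually_atTop.1 h1
      refine ⟨max (max T₁ T₂) (max T₃ 1), by positivity, fun t ht s hs => ?_⟩
      have t1 : T₁ ≤ t := ((le_max_left _ _).trans (le_max_left _ _)).trans ht
      have t2 : T₂ ≤ t := ((le_max_right _ _).trans (le_max_left _ _)).trans ht
      have t3 : T₃ ≤ t := ((le_max_left _ _).trans (le_max_right _ _)).trans ht
      have t4 : 0 < t := one_pos.trans_le (((le_max_right _ _).trans (le_max_right _ _)).trans ht)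
      obtain ⟨a1, a2, a3, a4, a5, a6, a7⟩ := hφ t t4
      have h3 : (L t : ℂ) * tau (γx t (φ t s)) - (B - A) =
          (L t : ℂ) * (tau (γx t (φ t s)) - w) + ((L t : ℂ) * w - (B - A)) := by ring
      rw [h3]
      have h4 : ‖(L t : ℂ) * (tau (γx t (φ t s)) - w)‖ ≤ ε / 2 := by
        rw [norm_mul, Complex.norm_real, Real.norm_eq_abs, abs_of_nonneg (hL0 t)]
        calc L t * ‖tau (γx t (φ t s)) - w‖ ≤ M * (ε / (2 * M)) :=
              mul_le_mul (hT₂ t t2) (hT₁ t t1 _ (a6 s hs)).le (norm_nonneg _) hM0.le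
          _ = ε / 2 := by field_simp
      calc _ ≤ ‖(L t : ℂ) * (tau (γx t (φ t s)) - w)‖ + ‖(L t : ℂ) * w - (B - A)‖ :=
            norm_add_le _ _
        _ < ε / 2 + ε / 2 := add_lt_add_of_le_of_lt h4 (hT₃ t t3)
        _ = ε := by ring
    obtain ⟨T₁, hT₁0, hT₁⟩ := hder (ε / 2) (by positivity)
    have h1 : ∀ᶠ t in atTop, ‖γ t 0 - A‖ < ε / 2 := by
      have h2 := (hA.sub_const A).norm
      rw [sub_self, norm_zero] at h2
      exact h2.eventually (gt_mem_nhds (by positivity))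
    obtain ⟨T₂, hT₂⟩ := eventually_atTop.1 h1
    refine ⟨max T₁ T₂, fun t ht s hs => ?_⟩
    have t1 : T₁ ≤ t := (le_max_left _ _).trans ht
    have t2 : T₂ ≤ t := (le_max_right _ _).trans ht
    have t4 : 0 < t := hT₁0.trans_le t1
    obtain ⟨a1, a2, a3, a4, a5, a6, a7⟩ := hφ t t4
    refine ⟨?_, (hT₁ t t1 s hs).trans (by linarith)⟩
    -- integrate the derivative
    have hcφ : Continuous (φ t) := continuous_iff_continuousAt.2 fun s => (a2 s).continuousAt
    have hcont : ContinuousOn (fun s => (L t : ℂ) * tau (γx t (φ t s))) (Icc (0 : ℝ) 1) :=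
      continuousOn_const.mul (cont_tau ((slice h.cx t4).comp hcφ.continuousOn a6)
        fun s hs => h.reg t _ t4 (a6 s hs))
    have e1 := ftc a7 hcont (le_refl (0 : ℝ)) hs.1 hs.2
    rw [a4] at e1
    have e2 : γ t (φ t s) - (A + (s : ℂ) * (B - A)) =
        (γ t 0 - A) + ∫ z in (0 : ℝ)..s, ((L t : ℂ) * tau (γx t (φ t z)) - (B - A)) := by
      rw [intervalIntegral.integral_sub, intervalIntegral.integral_const, sub_zero,
        Complex.real_smul, e1]
      · ring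
      · apply ContinuousOn.intervalIntegrable
        rw [uIcc_of_le hs.1]
        exact hcont.mono (Icc_subset_Icc_right hs.2)
      · exact intervalIntegrable_const
    rw [e2]
    have e3 : ‖∫ z in (0 : ℝ)..s, ((L t : ℂ) * tau (γx t (φ t z)) - (B - A))‖ ≤ ε / 2 * |s - 0| := by
      refine intervalIntegral.norm_integral_le_of_norm_le_const fun z hz => ?_
      rw [uIoc_of_le hs.1] at hz
      exact (hT₁ t t1 z ⟨hz.1.le, hz.2.trans hs.2⟩).le
    have e4 : ε / 2 * |s - 0| ≤ ε / 2 := by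
      rw [sub_zero, abs_of_nonneg hs.1]
      have := hs.2
      nlinarith
    calc _ ≤ ‖γ t 0 - A‖ + ‖∫ z in (0 : ℝ)..s, ((L t : ℂ) * tau (γx t (φ t z)) - (B - A))‖ :=
          norm_add_le _ _
      _ < ε / 2 + ε / 2 := add_lt_add_of_lt_of_le (hT₂ t t2) (e3.trans e4)
      _ = ε := by ring

end Pool.Agent.NF
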