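import Pool.Agent.Lib_helper34.NF.Defs

/-!
# Combinatorial and algebraic lemmas
-/

set_option autoImplicit false

namespace Pool.Agent.NF

open Set Filter Topology MeasureTheory ComplexConjugate

theorem sg_mul_self (b : Bool) : sg b * sg b = 1 := by
  cases b <;> simp [sg]

theorem norm_tau {p : ℂ} (hp : p ≠ 0) : ‖tau p‖ = 1 := by
  unfold tau
  rw [norm_div, Complex.norm_real, norm_norm, div_self (norm_ne_zero_iff.2 hp)]

theorem norm_mul_tau (p : ℂ) : (‖p‖ : ℂ) * tau p = p := by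
  unfold tau
  by_cases hp : p = 0
  · rw [hp]
    simp
  · have : (‖p‖ : ℂ) ≠ 0 := by
      exact_mod_cast norm_ne_zero_iff.2 hp
    field_simp

/-- summation by parts over the ends -/
theorem ends_sum {ι J R : Type} [Fintype ι] [DecidableEq J] [DecidableEq R] [Fintype J] [Fintype R]
    (E : ι × Bool → J ⊕ R) (w g : ι × Bool → ℝ)
    (hw : ∀ j : J, ∑ a ∈ Finset.univ.filter (fun a : ι × Bool => E a = Sum.inl j),
      sg a.2 * w a = 0)
    (hg : ∀ (j : J) a b, E a = Sum.inl j → E b = Sum.inl j → g a = g b)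
    (hl : ∀ a r, E a = Sum.inr r → w a * g a = 0) :
    ∑ i, (w (i, true) * g (i, true) - w (i, false) * g (i, false)) = 0 := by
  have h1 : ∑ i, (w (i, true) * g (i, true) - w (i, false) * g (i, false)) =
      - ∑ a : ι × Bool, sg a.2 * (w a * g a) := by
    rw [Fintype.sum_prod_type, ← Finset.sum_neg_distrib]
    refine Finset.sum_congr rfl fun i _ => ?_
    rw [Fintype.sum_bool]
    simp only [sg]
    norm_num
    ring
  rw [h1, ← Finset.sum_fiberwise Finset.univ E, neg_eq_zero]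
  refine Finset.sum_eq_zero fun v _ => ?_
  rcases v with j | r
  · by_cases hne : (Finset.univ.filter (fun a : ι × Bool => E a = Sum.inl j)).Nonempty
    · obtain ⟨b, hb⟩ := hne
      have hb' := (Finset.mem_filter.1 hb).2
      have h2 : ∑ a ∈ Finset.univ.filter (fun a : ι × Bool => E a = Sum.inl j),
          sg a.2 * (w a * g a) =
          (∑ a ∈ Finset.univ.filter (fun a : ι × Bool => E a = Sum.inl j), sg a.2 * w a) * g b := by
        rw [Finset.sum_mul]
        refine Finset.sum_congr rfl fun a ha => ?_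
        rw [hg j a b (Finset.mem_filter.1 ha).2 hb']
        ring
      rw [h2, hw j, zero_mul]
    · rw [Finset.not_nonempty_iff_eq_empty] at hne
      rw [hne, Finset.sum_empty]
  · refine Finset.sum_eq_zero fun a ha => ?_
    rw [hl a r (Finset.mem_filter.1 ha).2, mul_zero]

/-- summation by parts, complex version -/
theorem ends_sum_re {ι J R : Type} [Fintype ι] [DecidableEq J] [DecidableEq R] [Fintype J]
    [Fintype R] (E : ι × Bool → J ⊕ R) (W V : ι × Bool → ℂ)
    (hW : ∀ j : J, ∑ a ∈ Finset.univ.filter (fun a : ι × Bool => E a = Sum.inl j),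
      (sg a.2 : ℂ) * W a = 0)
    (hV : ∀ a b, E a = E b → V a = V b) (hl : ∀ a r, E a = Sum.inr r → V a = 0) :
    ∑ i, ((conj (W (i, true)) * V (i, true)).re - (conj (W (i, false)) * V (i, false)).re) = 0 := by
  have h1 := ends_sum E (fun a => (W a).re) (fun a => (V a).re) (by
    intro j
    have := congrArg Complex.re (hW j)
    rw [Complex.re_sum, Complex.zero_re] at this
    rw [← this]
    refine Finset.sum_congr rfl fun a _ => ?_
    rw [Complex.re_ofReal_mul]) (fun j a b ha hb => by rw [hV a b (ha.trans hb.symm)]) (fun a r har => by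
      rw [hl a r har, Complex.zero_re, mul_zero])
  have h2 := ends_sum E (fun a => (W a).im) (fun a => (V a).im) (by
    intro j
    have := congrArg Complex.im (hW j)
    rw [Complex.im_sum, Complex.zero_im] at this
    rw [← this]
    refine Finset.sum_congr rfl fun a _ => ?_
    rw [Complex.im_ofReal_mul]) (fun j a b ha hb => by rw [hV a b (ha.trans hb.symm)]) (fun a r har => by
      rw [hl a r har, Complex.zero_im, mul_zero])
  have h3 : ∑ i, ((conj (W (i, true)) * V (i, true)).re - (conj (W (i, false)) * V (i, false)).re) =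
      ∑ i, ((W (i, true)).re * (V (i, true)).re - (W (i, false)).re * (V (i, false)).re) +
      ∑ i, ((W (i, true)).im * (V (i, true)).im - (W (i, false)).im * (V (i, false)).im) := by
    rw [← Finset.sum_add_distrib]
    refine Finset.sum_congr rfl fun i _ => ?_
    simp only [Complex.mul_re, Complex.conj_re, Complex.conj_im]
    ring
  rw [h3, h1, h2, add_zero]

theorem vtx_aux {T₀ T₁ T₂ : ℂ} (h₀ : ‖T₀‖ = 1) (h₁ : ‖T₁‖ = 1) (h₂ : ‖T₂‖ = 1)
    (h : T₀ + T₁ + T₂ = 0) : (conj T₀ * T₁).re = -1 / 2 ∧ (conj T₀ * T₁).im ^ 2 = 3 / 4 := by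
  have n0 : T₀.re ^ 2 + T₀.im ^ 2 = 1 := by
    have := Complex.sq_norm T₀
    rw [h₀, Complex.normSq_apply] at this
    nlinarith
  have n1 : T₁.re ^ 2 + T₁.im ^ 2 = 1 := by
    have := Complex.sq_norm T₁
    rw [h₁, Complex.normSq_apply] at this
    nlinarith
  have n2 : T₂.re ^ 2 + T₂.im ^ 2 = 1 := by
    have := Complex.sq_norm T₂
    rw [h₂, Complex.normSq_apply] at this
    nlinarith
  have hre : T₀.re + T₁.re + T₂.re = 0 := by
    have := congrArg Complex.re h
    simpa using this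
  have him : T₀.im + T₁.im + T₂.im = 0 := by
    have := congrArg Complex.im h
    simpa using this
  have e1 : T₂.re = -(T₀.re + T₁.re) := by linarith
  have e2 : T₂.im = -(T₀.im + T₁.im) := by linarith
  rw [e1, e2] at n2
  have hr : (conj T₀ * T₁).re = -1 / 2 := by
    simp only [Complex.mul_re, Complex.conj_re, Complex.conj_im]
    nlinarith
  refine ⟨hr, ?_⟩
  have h3 : (conj T₀ * T₁).re ^ 2 + (conj T₀ * T₁).im ^ 2 = 1 := by
    simp only [Complex.mul_re, Complex.mul_im, Complex.conj_re, Complex.conj_im]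
    have : (T₀.re ^ 2 + T₀.im ^ 2) * (T₁.re ^ 2 + T₁.im ^ 2) = 1 := by rw [n0, n1, one_mul]
    nlinarith
  rw [hr] at h3
  nlinarith

theorem conj_mul_self_of_norm {T : ℂ} (h : ‖T‖ = 1) : conj T * T = 1 := by
  rw [mul_comm, Complex.mul_conj, Complex.normSq_eq_norm_sq, h]
  simp

/-- two triples of unit vectors with vanishing sum which are close to each other differ by a
rotation -/
theorem vtx {T₀ T₁ T₂ S₀ S₁ S₂ : ℂ} (hT₀ : ‖T₀‖ = 1) (hT₁ : ‖T₁‖ = 1) (hT₂ : ‖T₂‖ = 1)
    (hS₀ : ‖S₀‖ = 1) (hS₁ : ‖S₁‖ = 1) (hS₂ : ‖S₂‖ = 1) (hT : T₀ + T₁ + T₂ = 0)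
    (hS : S₀ + S₁ + S₂ = 0) (h₀ : 1 / 2 < (conj S₀ * T₀).re) (h₁ : 1 / 2 < (conj S₁ * T₁).re) :
    conj S₀ * T₀ = conj S₁ * T₁ := by
  obtain ⟨a1, a2⟩ := vtx_aux hT₀ hT₁ hT₂ hT
  obtain ⟨b1, b2⟩ := vtx_aux hS₀ hS₁ hS₂ hS
  set rT := conj T₀ * T₁ with hrT
  set rS := conj S₀ * S₁ with hrS
  have eT : T₁ = T₀ * rT := by
    rw [hrT, ← mul_assoc, mul_comm T₀, conj_mul_self_of_norm hT₀, one_mul]
  have eS : S₁ = S₀ * rS := by
    rw [hrS, ← mul_assoc, mul_comm S₀, conj_mul_self_of_norm hS₀, one_mul]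
  have nrT : ‖rT‖ = 1 := by
    rw [hrT, norm_mul, Complex.norm_conj, hT₀, hT₁, one_mul]
  have key : conj S₁ * T₁ = (conj rS * rT) * (conj S₀ * T₀) := by
    rw [eT, eS, map_mul]
    ring
  rcases eq_or_eq_neg_of_sq_eq_sq rS.im rT.im (by rw [a2, b2]) with h | h
  · have : rS = rT := Complex.ext (by rw [a1, b1]) h
    rw [key, this, conj_mul_self_of_norm nrT, one_mul]
  · exfalso
    have hc : conj rS = rT := Complex.ext (by rw [Complex.conj_re, a1, b1])
      (by rw [Complex.conj_im, h, neg_neg])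
    rw [hc] at key
    set z₀ := conj S₀ * T₀ with hz₀
    set z₁ := conj S₁ * T₁ with hz₁
    have n0 : z₀.re ^ 2 + z₀.im ^ 2 = 1 := by
      have h3 := Complex.sq_norm z₀
      rw [hz₀, norm_mul, Complex.norm_conj, hS₀, hT₀, Complex.normSq_apply] at h3
      nlinarith
    have n1 : z₁.re ^ 2 + z₁.im ^ 2 = 1 := by
      have h3 := Complex.sq_norm z₁
      rw [hz₁, norm_mul, Complex.norm_conj, hS₁, hT₁, Complex.normSq_apply] at h3
      nlinarith
    have h3 : (conj z₀ * z₁).re = (rT * rT).re := by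
      have nz : conj z₀ * z₀ = 1 := by
        apply conj_mul_self_of_norm
        rw [hz₀, norm_mul, Complex.norm_conj, hS₀, hT₀, one_mul]
      rw [key]
      have : conj z₀ * (rT * rT * z₀) = rT * rT * (conj z₀ * z₀) := by ring
      rw [this, nz, mul_one]
    simp only [Complex.mul_re, Complex.conj_re, Complex.conj_im] at h3
    rw [a1] at h3
    have h4 : rT.im * rT.im = 3 / 4 := by rw [← sq, a2]
    rw [h4] at h3
    -- Re z > 1/2 for both, so |Im z|^2 < 3/4
    have i0 : z₀.im ^ 2 < 3 / 4 := by nlinarith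
    have i1 : z₁.im ^ 2 < 3 / 4 := by nlinarith
    nlinarith [sq_nonneg (z₀.im + z₁.im), mul_pos (sub_pos.2 h₀) (sub_pos.2 h₁)]

/-- three unit vectors with sum zero: one has a positive component in a given direction -/
theorem pos_comp {S₀ S₁ S₂ u : ℂ} (hS₀ : ‖S₀‖ = 1) (hS₁ : ‖S₁‖ = 1) (hS₂ : ‖S₂‖ = 1)
    (hS : S₀ + S₁ + S₂ = 0) (hu : u ≠ 0) :
    0 < (conj u * S₀).re ∨ 0 < (conj u * S₁).re ∨ 0 < (conj u * S₂).re := by
  by_contra hcon
  push Not at hcon
  obtain ⟨h0, h1, h2⟩ := hcon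
  have hsum : (conj u * S₀).re + (conj u * S₁).re + (conj u * S₂).re = 0 := by
    rw [← Complex.add_re, ← Complex.add_re, ← mul_add, ← mul_add, hS, mul_zero, Complex.zero_re]
  have e0 : (conj u * S₀).re = 0 := by linarith
  have e1 : (conj u * S₁).re = 0 := by linarith
  obtain ⟨b1, _⟩ := vtx_aux hS₀ hS₁ hS₂ hS
  -- S₀ and S₁ are both perpendicular to u, hence conj S₀ * S₁ is real
  simp only [Complex.mul_re, Complex.conj_re, Complex.conj_im] at e0 e1 b1
  have n0 : S₀.re ^ 2 + S₀.im ^ 2 = 1 := by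
    have := Complex.sq_norm S₀
    rw [hS₀, Complex.normSq_apply] at this
    nlinarith
  have n1 : S₁.re ^ 2 + S₁.im ^ 2 = 1 := by
    have := Complex.sq_norm S₁
    rw [hS₁, Complex.normSq_apply] at this
    nlinarith
  have hu2 : 0 < u.re ^ 2 + u.im ^ 2 := by
    have h3 := Complex.normSq_pos.2 hu
    rw [Complex.normSq_apply] at h3
    nlinarith
  -- cross product of S₀ and S₁ vanishes
  have hcross : S₀.re * S₁.im - S₀.im * S₁.re = 0 := by
    have h3 : (u.re ^ 2 + u.im ^ 2) * (S₀.re * S₁.im - S₀.im * S₁.re) = 0 := by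
      have h4 : u.re * S₀.re = -(u.im * S₀.im) := by linarith
      have h5 : u.re * S₁.re = -(u.im * S₁.im) := by linarith
      linear_combination (u.re * S₁.im - u.im * S₁.re) * (by linarith : u.re * S₀.re + u.im * S₀.im = 0) -
        (u.re * S₀.im - u.im * S₀.re) * (by linarith : u.re * S₁.re + u.im * S₁.im = 0)
    rcases mul_eq_zero.1 h3 with h4 | h4
    · exact absurd h4 hu2.ne'
    · exact h4
  have h6 : (S₀.re * S₁.re + S₀.im * S₁.im) ^ 2 = 1 := by
    have : (S₀.re * S₁.re + S₀.im * S₁.im) ^ 2 + (S₀.re * S₁.im - S₀.im * S₁.re) ^ 2 =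
      (S₀.re ^ 2 + S₀.im ^ 2) * (S₁.re ^ 2 + S₁.im ^ 2) := by ring
    rw [hcross, n0, n1] at this
    linarith
  have h7 : S₀.re * S₁.re + S₀.im * S₁.im = -1 / 2 := by linarith
  rw [h7] at h6
  norm_num at h6

end Pool.Agent.NF
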