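import Pool.Agent.Lib_helper34.NF.Defs

/-!
# The notion of convergence
-/

set_option autoImplicit false

namespace Pool.Agent.NF

open Set Filter Topology MeasureTheory ComplexConjugate

/-- The curves `γ t` (restricted to `[0,1]`) admit, for all times `t > 0`, `C^1` reparametrisations
`s ↦ γ t (φ t s)` which converge in `C^1([0,1])`, as `t → ∞`, to the parametrisation
`s ↦ A + s (B - A)` of the segment from `A` to `B`. -/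
def C1Conv (γ : ℝ → ℝ → ℂ) (A B : ℂ) : Prop :=
  ∃ (φ : ℝ → ℝ → ℝ) (η : ℝ → ℝ → ℂ),
    (∀ t, 0 < t → ContDiff ℝ 1 (φ t) ∧ (∀ s, 0 < deriv (φ t) s) ∧ φ t 0 = 0 ∧ φ t 1 = 1) ∧
    (∀ t, 0 < t → ContinuousOn (η t) (Icc (0 : ℝ) 1) ∧ ∀ s ∈ Icc (0 : ℝ) 1,
      HasDerivWithinAt (fun s => γ t (φ t s)) (η t s) (Icc (0 : ℝ) 1) s) ∧
    ∀ ε : ℝ, 0 < ε → ∃ T : ℝ, ∀ t, T ≤ t → ∀ s ∈ Icc (0 : ℝ) 1,
      ‖γ t (φ t s) - (A + (s : ℂ) * (B - A))‖ < ε ∧ ‖η t s - (B - A)‖ < ε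

end Pool.Agent.NF
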