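import Mathlib

/-!
# MP_9b4ab6_gt: curvature flow of planar networks, definitions

The plane is `ℂ`.  A curve is a map `ℝ → ℂ` of which only the restriction to `[0,1]` matters.
`ι` is the set of curves, `J` the set of 3-points, `R` the set of fixed end-points.
An end of a curve is a pair `(i, b)`; `b = false` is the end at the parameter `0`, `b = true`
the end at the parameter `1`.
-/

set_option autoImplicit false

namespace Pool.Agent.NF

open Set Filter Topology MeasureTheory ComplexConjugate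

/-- the parameter of an end -/
def par (b : Bool) : ℝ := if b then 1 else 0

/-- the sign of an end: the exterior unit tangent at the end is `sg * τ` -/
def sg (b : Bool) : ℝ := if b then -1 else 1

/-- the unit tangent `γ_x / |γ_x|` -/
noncomputable def tau (p : ℂ) : ℂ := p / (‖p‖ : ℂ)

/-- the curvature in terms of `p = γ_x` and `q = γ_xx` -/
noncomputable def curv (p q : ℂ) : ℝ := (conj p * q).im / ‖p‖ ^ 3

/-- one curve which is `C^2` in space and `C^1` in time on `(0,∞) × [0,1]`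
(first variable: time, second variable: parameter) -/
structure Crv (γ γx γxx γt : ℝ → ℝ → ℂ) : Prop where
  hx : ∀ t x : ℝ, 0 < t → x ∈ Icc (0 : ℝ) 1 →
    HasDerivWithinAt (γ t) (γx t x) (Icc (0 : ℝ) 1) x
  hxx : ∀ t x : ℝ, 0 < t → x ∈ Icc (0 : ℝ) 1 →
    HasDerivWithinAt (γx t) (γxx t x) (Icc (0 : ℝ) 1) x
  ht : ∀ t x : ℝ, 0 < t → x ∈ Icc (0 : ℝ) 1 → HasDerivAt (fun s => γ s x) (γt t x) t
  cx : ContinuousOn (fun z : ℝ × ℝ => γx z.1 z.2) (Ioi (0 : ℝ) ×ˢ Icc (0 : ℝ) 1)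
  cxx : ContinuousOn (fun z : ℝ × ℝ => γxx z.1 z.2) (Ioi (0 : ℝ) ×ˢ Icc (0 : ℝ) 1)
  ct : ContinuousOn (fun z : ℝ × ℝ => γt z.1 z.2) (Ioi (0 : ℝ) ×ˢ Icc (0 : ℝ) 1)
  reg : ∀ t x : ℝ, 0 < t → x ∈ Icc (0 : ℝ) 1 → γx t x ≠ 0

/-- A curvature flow of a (possibly non embedded) network with fixed end-points, which exists for
all times. -/
structure Flow (ι J R : Type) [Fintype ι] [DecidableEq J] [DecidableEq R] where
  ends : ι × Bool → J ⊕ R
  three : ∀ j : J, (Finset.univ.filter fun a : ι × Bool => ends a = Sum.inl j).card = 3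
  P : R → ℂ
  γ : ι → ℝ → ℝ → ℂ
  γx : ι → ℝ → ℝ → ℂ
  γxx : ι → ℝ → ℝ → ℂ
  γt : ι → ℝ → ℝ → ℂ
  lam : ι → ℝ → ℝ → ℝ
  crv : ∀ i, Crv (γ i) (γx i) (γxx i) (γt i)
  glue : ∀ a b : ι × Bool, ∀ t : ℝ, 0 < t → ends a = ends b →
    γ a.1 t (par a.2) = γ b.1 t (par b.2)
  fixed : ∀ (a : ι × Bool) (r : R) (t : ℝ), 0 < t → ends a = Sum.inr r →
    γ a.1 t (par a.2) = P r
  angle : ∀ (j : J) (t : ℝ), 0 < t →
    ∑ a ∈ Finset.univ.filter (fun a : ι × Bool => ends a = Sum.inl j),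
      (sg a.2 : ℂ) * tau (γx a.1 t (par a.2)) = 0
  motion : ∀ (i : ι) (t x : ℝ), 0 < t → x ∈ Icc (0 : ℝ) 1 →
    γt i t x = ((curv (γx i t x) (γxx i t x) : ℂ) * Complex.I + (lam i t x : ℂ)) *
      tau (γx i t x)

end Pool.Agent.NF
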