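import Pool.Agent.Lib_helper34.NF.Max

/-!
# The energy and the maximum principle
-/

set_option autoImplicit false
set_option linter.unusedSectionVars false

namespace Pool.Agent.NF

open Set Filter Topology MeasureTheory ComplexConjugate

/-- differential of the energy density in the rotated frame -/
noncomputable def DD (c m : ℝ) : ℂ :=
  ((gg c m - m * gg1 c m : ℝ) : ℂ) + ((gg1 c m : ℝ) : ℂ) * Complex.I

theorem DD_deriv (c m : ℝ) : HasDerivAt (DD c) ((gg2 c m : ℂ) * (Complex.I - (m : ℂ))) m := by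
  have h1 : HasDerivAt (fun m => gg c m - m * gg1 c m) (gg1 c m - (1 * gg1 c m + m * gg2 c m)) m :=
    (gg_deriv c m).sub ((hasDerivAt_id' m).mul (gg1_deriv c m))
  have h2 := h1.ofReal_comp
  have h3 := (gg1_deriv c m).ofReal_comp.mul_const Complex.I
  refine (h2.add h3).congr_deriv ?_
  push_cast
  ring

theorem cont_DD (c : ℝ) : Continuous (DD c) := by
  unfold DD
  exact (Complex.continuous_ofReal.comp ((cont_gg c).sub (continuous_id.mul (cont_gg1 c)))).add
    ((Complex.continuous_ofReal.comp (cont_gg1 c)).mul continuous_const)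

section

variable {ι J R : Type} [Fintype ι] [DecidableEq J] [DecidableEq R] [Fintype J] [Fintype R]
  {F : Flow ι J R} {ω : ι → ℂ}

/-- the energy -/
noncomputable def Flow.En (F : Flow ι J R) (ω : ι → ℂ) (c t : ℝ) : ℝ :=
  ∑ i, ∫ x in (0 : ℝ)..1, (conj (ω i) * F.γx i t x).re * gg c (slp (ω i) (F.γx i t x))

theorem near_open : IsOpen {s : ℝ | 0 < s ∧ F.Near ω s} := by
  rw [isOpen_iff_mem_nhds]
  rintro s ⟨hs, hs2⟩
  filter_upwards [lt_mem_nhds hs, hs2.eventually hs] with r hr hr2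
  exact ⟨hr, hr2⟩

theorem im_eq_slp {w p : ℂ} (h : (conj w * p).re ≠ 0) :
    (conj w * p).im = slp w p * (conj w * p).re := by
  unfold slp
  rw [div_mul_cancel₀ _ h]

theorem en_alg {w p q : ℂ} {k l g : ℝ} (hw : ‖w‖ = 1) (hp : p ≠ 0) (hre : 0 < (conj w * p).re)
    (hg : 0 ≤ g) (hk : k = curv p q) :
    0 ≤ (conj (w * ((k * ‖p‖ ^ 3 / (conj w * p).re ^ 2 : ℝ) •
      ((g : ℂ) * (Complex.I - ((slp w p : ℝ) : ℂ))))) *
        (((k : ℂ) * Complex.I + (l : ℂ)) * tau p)).re := by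
  set A := (conj w * p).re with hA
  set m := slp w p with hm
  have him : (conj w * p).im = m * A := im_eq_slp hre.ne'
  have hpp : conj w * p = (A : ℂ) * (1 + (m : ℂ) * Complex.I) := by
    apply Complex.ext
    · simp [← hA]
    · rw [him]
      simp
      ring
  have hA0 : (A : ℂ) ≠ 0 := by exact_mod_cast hre.ne'
  have h1 : w * (Complex.I - (m : ℂ)) = Complex.I * p / (A : ℂ) := by
    have h2 : w * (conj w * p) = p := rot_eq hw
    rw [hpp] at h2
    rw [eq_div_iff hA0]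
    nth_rewrite 1 [← h2]
    linear_combination (-(w * (A : ℂ) * (m : ℂ))) * Complex.I_sq
  have h3 : w * ((k * ‖p‖ ^ 3 / A ^ 2 : ℝ) • ((g : ℂ) * (Complex.I - (m : ℂ)))) =
      ((k * ‖p‖ ^ 3 / A ^ 2 * g / A : ℝ) : ℂ) * (Complex.I * p) := by
    rw [Complex.real_smul]
    have h4 : w * (((k * ‖p‖ ^ 3 / A ^ 2 : ℝ) : ℂ) * ((g : ℂ) * (Complex.I - (m : ℂ)))) =
        ((k * ‖p‖ ^ 3 / A ^ 2 : ℝ) : ℂ) * (g : ℂ) * (w * (Complex.I - (m : ℂ))) := by ring
    rw [h4, h1]
    push_cast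
    ring
  have h5 : conj p * tau p = (‖p‖ : ℂ) := by
    have := congrArg conj (conj_tau_mul hp)
    rw [map_mul, Complex.conj_conj, Complex.conj_ofReal, mul_comm] at this
    exact this
  rw [h3, map_mul, map_mul, Complex.conj_ofReal, Complex.conj_I]
  have h6 : ((k * ‖p‖ ^ 3 / A ^ 2 * g / A : ℝ) : ℂ) * (-Complex.I * conj p) *
      (((k : ℂ) * Complex.I + (l : ℂ)) * tau p) =
      ((k * ‖p‖ ^ 3 / A ^ 2 * g / A : ℝ) : ℂ) * ((-Complex.I * ((k : ℂ) * Complex.I + (l : ℂ))) *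
        (conj p * tau p)) := by ring
  rw [h6, h5, Complex.re_ofReal_mul]
  have h7 : (-Complex.I * ((k : ℂ) * Complex.I + (l : ℂ)) * (‖p‖ : ℂ)).re = k * ‖p‖ := by
    have h8 : -Complex.I * ((k : ℂ) * Complex.I + (l : ℂ)) * (‖p‖ : ℂ) =
        ((k * ‖p‖ : ℝ) : ℂ) + ((-(l * ‖p‖) : ℝ) : ℂ) * Complex.I := by
      push_cast
      linear_combination (-(k : ℂ) * (‖p‖ : ℂ)) * Complex.I_sq
    rw [h8, Complex.add_re, Complex.ofReal_re, Complex.re_ofReal_mul, Complex.I_re, mul_zero,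
      add_zero]
  rw [h7]
  have h9 : k * ‖p‖ ^ 3 / A ^ 2 * g / A * (k * ‖p‖) = g * k ^ 2 * ‖p‖ ^ 4 / A ^ 3 := by
    field_simp
  rw [h9]
  positivity

theorem Flow.en_deriv (hω : F.Cert ω) (c : ℝ) {t : ℝ} (ht : 0 < t) (hn : F.Near ω t) :
    ∃ d ≤ 0, HasDerivAt (F.En ω c) d t := by
  set U : Set ℝ := {s : ℝ | 0 < s ∧ F.Near ω s} with hU
  have hUo : IsOpen U := near_open
  have hUI : ∀ z ∈ (U ×ˢ Icc (0 : ℝ) 1 : Set (ℝ × ℝ)), z ∈ (Ioi (0 : ℝ) ×ˢ Icc (0 : ℝ) 1) :=
    fun z hz => ⟨hz.1.1, hz.2⟩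
  have h1 : ∀ i ∈ (Finset.univ : Finset ι), HasDerivAt
      (fun s => ∫ x in (0 : ℝ)..1, (conj (ω i) * F.γx i s x).re * gg c (slp (ω i) (F.γx i s x)))
      ((conj (ω i * DD c (slp (ω i) (F.γx i t 1))) * F.γt i t 1).re -
        (conj (ω i * DD c (slp (ω i) (F.γx i t 0))) * F.γt i t 0).re -
        ∫ x in (0 : ℝ)..1, (conj (ω i * ((curv (F.γx i t x) (F.γxx i t x) * ‖F.γx i t x‖ ^ 3 /
          (conj (ω i) * F.γx i t x).re ^ 2 : ℝ) • ((gg2 c (slp (ω i) (F.γx i t x)) : ℂ) *
            (Complex.I - ((slp (ω i) (F.γx i t x) : ℝ) : ℂ))))) * F.γt i t x).re) t := by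
    intro i _
    have hne : ∀ z ∈ (U ×ˢ Icc (0 : ℝ) 1 : Set (ℝ × ℝ)), F.γx i z.1 z.2 ≠ 0 :=
      fun z hz => (F.crv i).reg z.1 z.2 hz.1.1 hz.2
    have hre : ∀ z ∈ (U ×ˢ Icc (0 : ℝ) 1 : Set (ℝ × ℝ)), (conj (ω i) * F.γx i z.1 z.2).re ≠ 0 :=
      fun z hz => (hz.1.2.re_pos i hz.2).ne'
    have c1 : ContinuousOn (fun z : ℝ × ℝ => F.γx i z.1 z.2) (U ×ˢ Icc (0 : ℝ) 1) :=
      (F.crv i).cx.mono hUI
    have c2 : ContinuousOn (fun z : ℝ × ℝ => F.γxx i z.1 z.2) (U ×ˢ Icc (0 : ℝ) 1) :=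
      (F.crv i).cxx.mono hUI
    have c3 : ContinuousOn (fun z : ℝ × ℝ => (conj (ω i) * F.γx i z.1 z.2).re)
        (U ×ˢ Icc (0 : ℝ) 1) :=
      Complex.continuous_re.comp_continuousOn (continuousOn_const.mul c1)
    have c4 : ContinuousOn (fun z : ℝ × ℝ => slp (ω i) (F.γx i z.1 z.2))
        (U ×ˢ Icc (0 : ℝ) 1) := by
      unfold slp
      exact (Complex.continuous_im.comp_continuousOn (continuousOn_const.mul c1)).div c3 hre
    refine fv_proof (F.γ i) (F.γx i) (F.γxx i) (F.γt i) (F.crv i) U hUo (fun s hs => hs.1)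
      (fun s x => (conj (ω i) * F.γx i s x).re * gg c (slp (ω i) (F.γx i s x)))
      (fun s x => ω i * DD c (slp (ω i) (F.γx i s x)))
      (fun s x => ω i * ((curv (F.γx i s x) (F.γxx i s x) * ‖F.γx i s x‖ ^ 3 /
          (conj (ω i) * F.γx i s x).re ^ 2 : ℝ) • ((gg2 c (slp (ω i) (F.γx i s x)) : ℂ) *
            (Complex.I - ((slp (ω i) (F.γx i s x) : ℝ) : ℂ))))) ?_ ?_ ?_ ?_ ?_ t ⟨ht, hn⟩
    · exact c3.mul ((cont_gg c).comp_continuousOn c4)
    · intro s hs x hx
      have hr := (hs.2.re_pos i hx).ne'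
      have h2 := hasDeriv_slp ((F.crv i).hxx s x hs.1 hx) (hω.unit i) hr
      have h3 := (DD_deriv c (slp (ω i) (F.γx i s x))).scomp_hasDerivWithinAt x h2
      exact h3.const_mul (ω i)
    · exact continuousOn_const.mul ((cont_DD c).comp_continuousOn c4)
    · have c5 : ContinuousOn (fun z : ℝ × ℝ => (curv (F.γx i z.1 z.2) (F.γxx i z.1 z.2) *
          ‖F.γx i z.1 z.2‖ ^ 3 / (conj (ω i) * F.γx i z.1 z.2).re ^ 2 : ℝ))
          (U ×ˢ Icc (0 : ℝ) 1) := ((cont_curv c1 c2 hne).mul (c1.norm.pow 3)).div (c3.pow 2)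
          (fun z hz => pow_ne_zero _ (hre z hz))
      have c6 : ContinuousOn (fun z : ℝ × ℝ => ((gg2 c (slp (ω i) (F.γx i z.1 z.2)) : ℂ) *
            (Complex.I - ((slp (ω i) (F.γx i z.1 z.2) : ℝ) : ℂ)))) (U ×ˢ Icc (0 : ℝ) 1) :=
        (Complex.continuous_ofReal.comp_continuousOn
          ((cont_gg2 c).comp_continuousOn c4)).mul (continuousOn_const.sub
            (Complex.continuous_ofReal.comp_continuousOn c4))
      exact continuousOn_const.mul (c5.smul c6)
    · intro s hs r hr x hx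
      have hA := hs.2.re_pos i hx
      have hA' := hr.2.re_pos i hx
      set p := F.γx i s x with hp
      set p' := F.γx i r x with hp'
      set m := slp (ω i) p with hm
      set m' := slp (ω i) p' with hm'
      have e1 : ∀ z : ℂ, (conj (ω i * DD c m) * z).re =
          (gg c m - m * gg1 c m) * (conj (ω i) * z).re + gg1 c m * (conj (ω i) * z).im := by
        intro z
        have : conj (ω i * DD c m) * z = conj (DD c m) * (conj (ω i) * z) := by
          rw [map_mul]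
          ring
        rw [this]
        unfold DD
        rw [map_add, map_mul, Complex.conj_ofReal, Complex.conj_ofReal, Complex.conj_I, add_mul,
          Complex.add_re, Complex.re_ofReal_mul, mul_assoc, Complex.re_ofReal_mul]
        simp only [Complex.mul_re, Complex.neg_re, Complex.I_re, Complex.neg_im, Complex.I_im,
          Complex.mul_im, Complex.conj_re, Complex.conj_im]
        ring
      rw [mul_sub, Complex.sub_re, e1, e1, im_eq_slp hA.ne', im_eq_slp hA'.ne', ← hm, ← hm']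
      have h2 := gg_conv c m m'
      have h3 := mul_le_mul_of_nonneg_left h2 hA'.le
      nlinarith [h3]
  have h2 := HasDerivAt.fun_sum h1
  refine ⟨_, ?_, h2⟩
  rw [Finset.sum_sub_distrib]
  have h3 : ∑ i, ((conj (ω i * DD c (slp (ω i) (F.γx i t 1))) * F.γt i t 1).re -
      (conj (ω i * DD c (slp (ω i) (F.γx i t 0))) * F.γt i t 0).re) = 0 := by
    have h4 := ends_sum_re F.ends (fun a => ω a.1 * DD c (slp (ω a.1) (F.γx a.1 t (par a.2))))
      (fun a => F.γt a.1 t (par a.2)) (fun j => by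
        by_cases hne : (Finset.univ.filter (fun a : ι × Bool => F.ends a = Sum.inl j)).Nonempty
        · obtain ⟨b, hb⟩ := hne
          have hb' := (Finset.mem_filter.1 hb).2
          have h5 : ∑ a ∈ Finset.univ.filter (fun a : ι × Bool => F.ends a = Sum.inl j),
              (sg a.2 : ℂ) * (ω a.1 * DD c (slp (ω a.1) (F.γx a.1 t (par a.2)))) =
              (∑ a ∈ Finset.univ.filter (fun a : ι × Bool => F.ends a = Sum.inl j),
                (sg a.2 : ℂ) * ω a.1) * DD c (slp (ω b.1) (F.γx b.1 t (par b.2))) := by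
            rw [Finset.sum_mul]
            refine Finset.sum_congr rfl fun a ha => ?_
            rw [hn.slp_eq hω ht j (Finset.mem_filter.1 ha).2 hb']
            ring
          rw [h5, hω.sum j, zero_mul]
        · rw [Finset.not_nonempty_iff_eq_empty] at hne
          rw [hne, Finset.sum_empty])
      (fun a b hab => F.vel_eq a b t ht hab) (fun a r ha => F.vel_fixed a r t ht ha)
    simpa [par] using h4
  rw [h3, zero_sub, neg_nonpos]
  refine Finset.sum_nonneg fun i _ => ?_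
  refine intervalIntegral.integral_nonneg zero_le_one fun x hx => ?_
  rw [F.motion i t x ht hx]
  exact en_alg (hω.unit i) ((F.crv i).reg t x ht hx) (hn.re_pos i hx) (gg2_nonneg c _) rfl

theorem Flow.en_term_nonneg {c t : ℝ} (hn : F.Near ω t) (i : ι) :
    0 ≤ ∫ x in (0 : ℝ)..1, (conj (ω i) * F.γx i t x).re * gg c (slp (ω i) (F.γx i t x)) :=
  intervalIntegral.integral_nonneg zero_le_one fun _ hx =>
    mul_nonneg (hn.re_pos i hx).le (gg_nonneg c _)

theorem Flow.en_eq_zero {c t : ℝ} (hn : F.Near ω t) (h : F.Good ω c t) : F.En ω c t = 0 := by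
  unfold Flow.En
  refine Finset.sum_eq_zero fun i _ => ?_
  have h1 : ∫ x in (0 : ℝ)..1, (conj (ω i) * F.γx i t x).re * gg c (slp (ω i) (F.γx i t x)) =
      ∫ x in (0 : ℝ)..1, (0 : ℝ) := by
    refine intervalIntegral.integral_congr fun x hx => ?_
    rw [uIcc_of_le zero_le_one] at hx
    have h2 := (h i x hx).2
    have h3 := hn.re_pos i hx
    have h4 : |slp (ω i) (F.γx i t x)| ≤ c := by
      unfold slp
      rw [abs_div, abs_of_pos h3, div_le_iff₀ h3]
      exact h2
    rw [gg_zero h4, mul_zero]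
  rw [h1]
  simp

theorem Flow.good_of_en {c t : ℝ} (ht : 0 < t) (hn : F.Near ω t) (h : F.En ω c t ≤ 0) :
    F.Good ω c t := by
  intro i x hx
  have h3 := hn.re_pos i hx
  refine ⟨h3.le, ?_⟩
  have h1 : ∫ x in (0 : ℝ)..1, (conj (ω i) * F.γx i t x).re * gg c (slp (ω i) (F.γx i t x)) ≤ 0 := by
    refine le_trans ?_ h
    unfold Flow.En
    exact Finset.single_le_sum (f := fun i => ∫ x in (0 : ℝ)..1,
      (conj (ω i) * F.γx i t x).re * gg c (slp (ω i) (F.γx i t x)))
      (fun i _ => Flow.en_term_nonneg hn i) (Finset.mem_univ i)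
  have c1 := slice (F.crv i).cx ht
  have c3 : ContinuousOn (fun x => (conj (ω i) * F.γx i t x).re) (Icc (0 : ℝ) 1) :=
    Complex.continuous_re.comp_continuousOn (continuousOn_const.mul c1)
  have c4 : ContinuousOn (fun x => slp (ω i) (F.γx i t x)) (Icc (0 : ℝ) 1) := by
    unfold slp
    exact (Complex.continuous_im.comp_continuousOn (continuousOn_const.mul c1)).div c3
      (fun y hy => (hn.re_pos i hy).ne')
  have c5 : ContinuousOn (fun x => (conj (ω i) * F.γx i t x).re *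
      gg c (slp (ω i) (F.γx i t x))) (Icc (0 : ℝ) 1) := c3.mul ((cont_gg c).comp_continuousOn c4)
  by_cases hz : gg c (slp (ω i) (F.γx i t x)) = 0
  · have h4 := le_of_gg_zero hz
    unfold slp at h4
    rw [abs_div, abs_of_pos h3, div_le_iff₀ h3] at h4
    exact h4
  · exfalso
    have h5 : 0 < gg c (slp (ω i) (F.γx i t x)) := lt_of_le_of_ne (gg_nonneg c _) (Ne.symm hz)
    have h6 := intervalIntegral.integral_pos (zero_lt_one' ℝ) c5
      (fun y hy => mul_nonneg (hn.re_pos i ⟨hy.1.le, hy.2⟩).le (gg_nonneg c _))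
      ⟨x, hx, mul_pos h3 h5⟩
    linarith

/-- the condition `Good` persists for a short time -/
theorem Flow.Good.step (hω : F.Cert ω) {c t : ℝ} (hc1 : c ≤ 1) (ht : 0 < t)
    (h : F.Good ω c t) : ∀ᶠ s in 𝓝[>] t, F.Good ω c s := by
  have hn := h.near hω hc1 ht
  have h1 := near_open (F := F) (ω := ω) |>.mem_nhds (show t ∈ {s : ℝ | 0 < s ∧ F.Near ω s} from
    ⟨ht, hn⟩)
  obtain ⟨ε, hε, hball⟩ := Metric.mem_nhds_iff.1 h1
  have hIco : ∀ s ∈ Ico t (t + ε), 0 < s ∧ F.Near ω s := by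
    intro s hs
    refine hball ?_
    rw [Metric.mem_ball, Real.dist_eq, abs_lt]
    exact ⟨by linarith [hs.1], by linarith [hs.2]⟩
  have hanti : AntitoneOn (F.En ω c) (Ico t (t + ε)) := by
    refine antitoneOn_of_deriv_nonpos (convex_Ico t (t + ε)) ?_ ?_ ?_
    · intro s hs
      obtain ⟨d, _, hd⟩ := Flow.en_deriv hω c (hIco s hs).1 (hIco s hs).2
      exact hd.continuousAt.continuousWithinAt
    · intro s hs
      rw [interior_Ico] at hs
      obtain ⟨d, _, hd⟩ := Flow.en_deriv hω c (hIco s (Ioo_subset_Ico_self hs)).1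
        (hIco s (Ioo_subset_Ico_self hs)).2
      exact hd.differentiableAt.differentiableWithinAt
    · intro s hs
      rw [interior_Ico] at hs
      obtain ⟨d, hd0, hd⟩ := Flow.en_deriv hω c (hIco s (Ioo_subset_Ico_self hs)).1
        (hIco s (Ioo_subset_Ico_self hs)).2
      rw [hd.deriv]
      exact hd0
  have h0 := Flow.en_eq_zero hn h
  filter_upwards [Ioo_mem_nhdsGT (show t < t + ε by linarith)] with s hs
  have hs' : s ∈ Ico t (t + ε) := ⟨hs.1.le, hs.2⟩
  refine Flow.good_of_en (hIco s hs').1 (hIco s hs').2 ?_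
  rw [← h0]
  exact hanti ⟨le_refl _, by linarith⟩ hs' hs.1.le

/-- maximum principle: the condition `Good` persists for all times -/
theorem Flow.Good.forever (hω : F.Cert ω) {c t : ℝ} (hc1 : c ≤ 1) (ht : 0 < t)
    (h : F.Good ω c t) (s : ℝ) (hs : t ≤ s) : F.Good ω c s := by
  have h1 : Icc t s ⊆ {r | F.Good ω c r} := by
    refine IsClosed.Icc_subset_of_forall_mem_nhdsWithin ?_ h ?_
    · have h2 : {r | F.Good ω c r} ∩ Icc t s = Icc t s ∩ ⋂ i, ⋂ x ∈ Icc (0 : ℝ) 1,
          ((Icc t s ∩ (fun r => (conj (ω i) * F.γx i r x).re) ⁻¹' Ici 0) ∩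
          (Icc t s ∩ (fun r => c * (conj (ω i) * F.γx i r x).re -
            |(conj (ω i) * F.γx i r x).im|) ⁻¹' Ici 0)) := by
        ext r
        simp only [mem_inter_iff, mem_iInter, mem_preimage, mem_Ici]
        constructor
        · rintro ⟨h3, h4⟩
          exact ⟨h4, fun i x hx => ⟨⟨h4, (h3 i x hx).1⟩, h4, by linarith [(h3 i x hx).2]⟩⟩
        · rintro ⟨h4, h3⟩
          exact ⟨fun i x hx => ⟨(h3 i x hx).1.2, by linarith [(h3 i x hx).2.2]⟩, h4⟩
      rw [h2]
      refine isClosed_Icc.inter (isClosed_iInter fun i => isClosed_biInter fun x hx => ?_)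
      have c1 : ContinuousOn (fun r => F.γx i r x) (Icc t s) :=
        (slice' (F.crv i).cx hx).mono fun r hr => mem_Ioi.2 (ht.trans_le hr.1)
      have c2 : ContinuousOn (fun r => conj (ω i) * F.γx i r x) (Icc t s) :=
        continuousOn_const.mul c1
      have c3 := Complex.continuous_re.comp_continuousOn c2
      have c4 := Complex.continuous_im.comp_continuousOn c2
      exact (c3.preimage_isClosed_of_isClosed isClosed_Icc isClosed_Ici).inter
        (((continuousOn_const.mul c3).sub c4.abs).preimage_isClosed_of_isClosed isClosed_Icc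
          isClosed_Ici)
    · intro r hr
      exact Flow.Good.step hω hc1 (ht.trans_le hr.2.1) hr.1
  exact h1 ⟨hs, le_refl _⟩

end

end Pool.Agent.NF
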