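import Pool.Agent.Lib_helper34.NF.Conv

/-!
# Hausdorff convergence
-/

set_option autoImplicit false

namespace Pool.Agent.NF

open Set Filter Topology MeasureTheory ComplexConjugate

theorem haus_phi {φ : ℝ → ℝ} (h1 : ContDiff ℝ 1 φ) (h2 : ∀ s, 0 < deriv φ s) (h3 : φ 0 = 0)
    (h4 : φ 1 = 1) : φ '' Icc (0 : ℝ) 1 = Icc (0 : ℝ) 1 := by
  have hm : StrictMono φ := strictMono_of_deriv_pos h2
  apply Subset.antisymm
  · rintro _ ⟨s, hs, rfl⟩
    exact ⟨by rw [← h3]; exact hm.monotone hs.1, by rw [← h4]; exact hm.monotone hs.2⟩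
  · have := intermediate_value_Icc (zero_le_one' ℝ) (h1.continuous.continuousOn (s := Icc 0 1))
    rwa [h3, h4] at this

theorem haus {ι : Type} [Fintype ι] (γ : ι → ℝ → ℝ → ℂ) (A B : ι → ℂ)
    (h : ∀ i, C1Conv (γ i) (A i) (B i)) :
    Tendsto (fun t => Metric.hausdorffEDist (⋃ i, γ i t '' Icc (0 : ℝ) 1)
      (⋃ i, segment ℝ (A i) (B i))) atTop (𝓝 0) := by
  choose φ η h1 _ h3 using h
  rw [ENNReal.tendsto_nhds_zero]
  intro ε hε
  -- a real number below ε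
  obtain ⟨δ, hδ0, hδ⟩ : ∃ δ : ℝ, 0 < δ ∧ ENNReal.ofReal δ ≤ ε := by
    by_cases htop : ε = ⊤
    · exact ⟨1, one_pos, by rw [htop]; exact le_top⟩
    · exact ⟨ε.toReal, ENNReal.toReal_pos hε.ne' htop, by rw [ENNReal.ofReal_toReal htop]⟩
  choose T hT using fun i => h3 i δ hδ0
  have hev : ∀ᶠ t in atTop, ∀ i, T i ≤ t := eventually_all.2 fun i => eventually_ge_atTop (T i)
  filter_upwards [hev, eventually_gt_atTop (0 : ℝ)] with t ht ht0
  refine le_trans ?_ hδ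
  refine Metric.hausdorffEDist_le_of_mem_edist ?_ ?_
  · intro x hx
    obtain ⟨i, hx⟩ := mem_iUnion.1 hx
    obtain ⟨y, hy, rfl⟩ := hx
    obtain ⟨c1, c2, c3, c4⟩ := h1 i t ht0
    rw [← haus_phi c1 c2 c3 c4] at hy
    obtain ⟨s, hs, rfl⟩ := hy
    refine ⟨A i + (s : ℂ) * (B i - A i), mem_iUnion.2 ⟨i, ?_⟩, ?_⟩
    · rw [segment_eq_image']
      exact ⟨s, hs, by
        show A i + s • (B i - A i) = _
        rw [Complex.real_smul]⟩
    · rw [edist_dist]
      refine ENNReal.ofReal_le_ofReal ?_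
      rw [dist_eq_norm]
      exact (hT i t (ht i) s hs).1.le
  · intro x hx
    obtain ⟨i, hx⟩ := mem_iUnion.1 hx
    rw [segment_eq_image'] at hx
    obtain ⟨s, hs, rfl⟩ := hx
    obtain ⟨c1, c2, c3, c4⟩ := h1 i t ht0
    refine ⟨γ i t (φ i t s), mem_iUnion.2 ⟨i, φ i t s, ?_, rfl⟩, ?_⟩
    · rw [← haus_phi c1 c2 c3 c4]
      exact mem_image_of_mem _ hs
    · rw [edist_dist]
      refine ENNReal.ofReal_le_ofReal ?_
      rw [dist_comm, dist_eq_norm]
      show ‖γ i t (φ i t s) - (A i + s • (B i - A i))‖ ≤ δ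
      rw [Complex.real_smul]
      exact (hT i t (ht i) s hs).1.le

end Pool.Agent.NF
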