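import Pool.Agent.Lib_helper34.NF.Uniq
import Pool.Agent.Lib_helper34.NF.CC
import Pool.Agent.Lib_helper34.NF.Haus

/-!
# Conclusion
-/

set_option autoImplicit false
set_option linter.unusedSectionVars false

namespace Pool.Agent.NF

open Set Filter Topology MeasureTheory ComplexConjugate

section

variable {ι J R : Type} [Fintype ι] [DecidableEq J] [DecidableEq R] [Fintype J] [Fintype R]
  {F : Flow ι J R} {ω : ι → ℂ}

theorem sum_ends_split (f : ι × Bool → ℂ) : ∑ a, f a = ∑ i, (f (i, true) + f (i, false)) := by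
  rw [Fintype.sum_prod_type]
  refine Finset.sum_congr rfl fun i _ => ?_
  rw [Fintype.sum_bool]

open Classical in
/-- the limit configuration is stationary for length -/
theorem Flow.LimPt.stationary (hω : F.Cert ω) {X : J ⊕ R → ℂ} (hX : F.LimPt ω X) (p : ℂ)
    (hp : ∀ r, F.P r ≠ p) :
    ∑ a ∈ Finset.univ.filter (fun a : ι × Bool => X (F.ends a) = p ∧
      X (F.ends (a.1, !a.2)) ≠ p), tau (X (F.ends (a.1, !a.2)) - X (F.ends a)) = 0 := by
  have h1 : ∀ a ∈ Finset.univ.filter (fun a : ι × Bool => X (F.ends a) = p ∧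
      X (F.ends (a.1, !a.2)) ≠ p), tau (X (F.ends (a.1, !a.2)) - X (F.ends a)) =
      (sg a.2 : ℂ) * ω a.1 := by
    intro a ha
    obtain ⟨-, ha1, ha2⟩ := Finset.mem_filter.1 ha
    obtain ⟨l, hl0, hl⟩ := hX.dir a.1
    rw [chd_other, hl]
    have hl1 : l ≠ 0 := by
      intro h0
      have h2 := chd_other F.ends X a
      rw [hl, h0, Complex.ofReal_zero, zero_mul, mul_zero, sub_eq_zero] at h2
      exact ha2 (h2.trans ha1)
    have hlpos : 0 < l := lt_of_le_of_ne hl0 (Ne.symm hl1)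
    have hsg : ‖(sg a.2 : ℂ)‖ = 1 := by
      cases a.2 <;> simp [sg]
    unfold tau
    rw [norm_mul, norm_mul, hsg, hω.unit, Complex.norm_real, Real.norm_eq_abs, abs_of_pos hlpos]
    have : (l : ℂ) ≠ 0 := by exact_mod_cast hl1
    push_cast
    field_simp
  rw [Finset.sum_congr rfl h1]
  -- the full sum
  have h2 : ∑ a ∈ Finset.univ.filter (fun a : ι × Bool => X (F.ends a) = p),
      (sg a.2 : ℂ) * ω a.1 = 0 := by
    have h3 : ∑ a ∈ Finset.univ.filter (fun a : ι × Bool => X (F.ends a) = p),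
        (sg a.2 : ℂ) * ω a.1 = ∑ v ∈ Finset.univ.filter (fun v : J ⊕ R => X v = p),
          ∑ a ∈ Finset.univ.filter (fun a : ι × Bool => F.ends a = v),
            (sg a.2 : ℂ) * ω a.1 := by
      rw [Finset.sum_sigma']
      refine Finset.sum_bij' (fun a _ => (⟨F.ends a, a⟩ : Σ _ : J ⊕ R, ι × Bool))
        (fun x _ => x.2) ?_ ?_ ?_ ?_ ?_
      · intro a ha
        rw [Finset.mem_filter] at ha
        simp [ha.2]
      · rintro ⟨v, a⟩ hx
        simp only [Finset.mem_sigma, Finset.mem_filter, Finset.mem_univ, true_and] at hx ⊢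
        rw [hx.2]
        exact hx.1
      · intro a _
        rfl
      · rintro ⟨v, a⟩ hx
        simp only [Finset.mem_sigma, Finset.mem_filter, Finset.mem_univ, true_and] at hx
        obtain ⟨_, rfl⟩ := hx
        rfl
      · intro a _
        rfl
    rw [h3]
    refine Finset.sum_eq_zero fun v hv => ?_
    rcases v with j | r
    · exact hω.sum j
    · exact absurd ((hX.fix r).symm.trans (Finset.mem_filter.1 hv).2) (hp r)
  -- the collapsed curves cancel
  have h4 : ∑ a ∈ Finset.univ.filter (fun a : ι × Bool => X (F.ends a) = p ∧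
      X (F.ends (a.1, !a.2)) = p), (sg a.2 : ℂ) * ω a.1 = 0 := by
    rw [Finset.sum_filter, sum_ends_split]
    refine Finset.sum_eq_zero fun i _ => ?_
    simp only [Bool.not_true, Bool.not_false]
    by_cases h5 : X (F.ends (i, true)) = p ∧ X (F.ends (i, false)) = p
    · rw [if_pos h5, if_pos h5.symm]
      simp [sg]
    · rw [if_neg h5, if_neg (fun h => h5 h.symm), add_zero]
  have h6 : ∑ a ∈ Finset.univ.filter (fun a : ι × Bool => X (F.ends a) = p),
      (sg a.2 : ℂ) * ω a.1 =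
      ∑ a ∈ Finset.univ.filter (fun a : ι × Bool => X (F.ends a) = p ∧
        X (F.ends (a.1, !a.2)) = p), (sg a.2 : ℂ) * ω a.1 +
      ∑ a ∈ Finset.univ.filter (fun a : ι × Bool => X (F.ends a) = p ∧
        X (F.ends (a.1, !a.2)) ≠ p), (sg a.2 : ℂ) * ω a.1 := by
    rw [← Finset.sum_filter_add_sum_filter_not (Finset.univ.filter
      (fun a : ι × Bool => X (F.ends a) = p)) (fun a => X (F.ends (a.1, !a.2)) = p),
      Finset.filter_filter, Finset.filter_filter]
  rw [h2, h4, zero_add] at h6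
  exact h6.symm

open Classical in
theorem main (F : Flow ι J R) : ∃ X : J ⊕ R → ℂ,
    (∀ r, X (Sum.inr r) = F.P r) ∧
    (∀ i, C1Conv (F.γ i) (X (F.ends (i, false))) (X (F.ends (i, true)))) ∧
    (∀ i, Tendsto (fun t => ∫ x in (0 : ℝ)..1, ‖F.γx i t x‖) atTop
      (𝓝 ‖X (F.ends (i, true)) - X (F.ends (i, false))‖)) ∧
    Tendsto (fun t => Metric.hausdorffEDist (⋃ i, F.γ i t '' Icc (0 : ℝ) 1)
      (⋃ i, segment ℝ (X (F.ends (i, false))) (X (F.ends (i, true))))) atTop (𝓝 0) ∧
    ∀ p : ℂ, (∀ r, F.P r ≠ p) →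
      ∑ a ∈ Finset.univ.filter (fun a : ι × Bool => X (F.ends a) = p ∧
        X (F.ends (a.1, !a.2)) ≠ p), tau (X (F.ends (a.1, !a.2)) - X (F.ends a)) = 0 := by
  obtain ⟨ω, hω⟩ := F.exists_lim
  obtain ⟨X, hX, hconv⟩ := hω.pos_conv
  have hpos : ∀ v, Tendsto (fun t => F.pos t v) atTop (𝓝 (X v)) := fun v =>
    (tendsto_pi_nhds.1 hconv) v
  have h0 : ∀ i, Tendsto (fun t => F.γ i t 0) atTop (𝓝 (X (F.ends (i, false)))) := by
    intro i
    refine (hpos (F.ends (i, false))).congr' ?_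
    filter_upwards [eventually_gt_atTop (0 : ℝ)] with t ht
    rw [← F.pos_ends ht (i, false)]
    simp [par]
  have h1 : ∀ i, Tendsto (fun t => F.γ i t 1) atTop (𝓝 (X (F.ends (i, true)))) := by
    intro i
    refine (hpos (F.ends (i, true))).congr' ?_
    filter_upwards [eventually_gt_atTop (0 : ℝ)] with t ht
    rw [← F.pos_ends ht (i, true)]
    simp [par]
  have hcc := fun i => cc (F.γ i) (F.γx i) (F.γxx i) (F.γt i) (F.crv i) (ω i)
    (X (F.ends (i, false))) (X (F.ends (i, true))) (hω.cert.unit i)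
    (fun δ hδ => hω.tau_conv i δ hδ) (h0 i) (h1 i)
  refine ⟨X, hX.fix, fun i => (hcc i).2.2, fun i => (hcc i).2.1, ?_, fun p hp =>
    hX.stationary hω.cert p hp⟩
  exact haus F.γ _ _ fun i => (hcc i).2.2

end

end Pool.Agent.NF
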