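import Pool.Agent.Lib_helper34.NF.Comb
import Pool.Agent.Lib_helper37.NF.AREAD

/-!
# The length of a network flow is decreasing
-/

set_option autoImplicit false
set_option linter.unusedSectionVars false

namespace Pool.Agent.NF

open Set Filter Topology MeasureTheory ComplexConjugate

theorem hasDeriv_re {f : ℝ → ℂ} {f' : ℂ} {s : Set ℝ} {x : ℝ} (h : HasDerivWithinAt f f' s x) :
    HasDerivWithinAt (fun y => (f y).re) f'.re s x := by
  exact Complex.reCLM.hasFDerivAt.comp_hasDerivWithinAt x h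

theorem hasDeriv_im {f : ℝ → ℂ} {f' : ℂ} {s : Set ℝ} {x : ℝ} (h : HasDerivWithinAt f f' s x) :
    HasDerivWithinAt (fun y => (f y).im) f'.im s x := by
  exact Complex.imCLM.hasFDerivAt.comp_hasDerivWithinAt x h

theorem norm_eq_sqrt' (p : ℂ) : ‖p‖ = Real.sqrt (p.re ^ 2 + p.im ^ 2) := by
  have h1 := Complex.sq_norm p
  rw [Complex.normSq_apply] at h1
  have : p.re ^ 2 + p.im ^ 2 = ‖p‖ ^ 2 := by rw [h1]; ring
  rw [this, Real.sqrt_sq (norm_nonneg _)]

theorem hasDeriv_norm {f : ℝ → ℂ} {f' : ℂ} {s : Set ℝ} {x : ℝ} (h : HasDerivWithinAt f f' s x)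
    (h0 : f x ≠ 0) :
    HasDerivWithinAt (fun y => ‖f y‖) ((conj (f x) * f').re / ‖f x‖) s x := by
  have hne : (f x).re ^ 2 + (f x).im ^ 2 ≠ 0 := by
    have := Complex.normSq_pos.2 h0
    rw [Complex.normSq_apply] at this
    nlinarith
  have h1 := (((hasDeriv_re h).pow 2).add ((hasDeriv_im h).pow 2)).sqrt (by
    simpa using hne)
  have h2 : HasDerivWithinAt (fun y => ‖f y‖) _ s x := h1.congr (fun y _ => by
    rw [norm_eq_sqrt']
    rfl) (by
    rw [norm_eq_sqrt']
    rfl)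
  refine h2.congr_deriv ?_
  have h3 : Real.sqrt ((f x).re ^ 2 + (f x).im ^ 2) = ‖f x‖ := (norm_eq_sqrt' _).symm
  simp only [Pi.add_apply, Pi.pow_apply, Complex.mul_re, Complex.conj_re, Complex.conj_im]
  rw [h3]
  have hn : ‖f x‖ ≠ 0 := norm_ne_zero_iff.2 h0
  field_simp
  push_cast
  ring

theorem hasDeriv_tau {f : ℝ → ℂ} {f' : ℂ} {s : Set ℝ} {x : ℝ} (h : HasDerivWithinAt f f' s x)
    (h0 : f x ≠ 0) :
    HasDerivWithinAt (fun y => tau (f y)) ((curv (f x) f' : ℂ) * Complex.I * f x) s x := by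
  have hn : (‖f x‖ : ℂ) ≠ 0 := by exact_mod_cast norm_ne_zero_iff.2 h0
  have h1 := h.div (hasDeriv_norm h h0).ofReal_comp hn
  refine h1.congr_deriv ?_
  have hsq : (f x) * conj (f x) = (‖f x‖ : ℂ) ^ 2 := by
    rw [Complex.mul_conj, Complex.normSq_eq_norm_sq]
    push_cast
    rfl
  have hf' : f' = f x * (conj (f x) * f') / (‖f x‖ : ℂ) ^ 2 := by
    rw [← mul_assoc, hsq, mul_div_cancel_left₀]
    exact pow_ne_zero _ hn
  set c := conj (f x) * f' with hc
  have hcc : c = (c.re : ℂ) + (c.im : ℂ) * Complex.I := (Complex.re_add_im c).symm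
  unfold curv
  rw [← hc]
  push_cast
  nth_rewrite 1 [hf']
  nth_rewrite 1 [hcc]
  field_simp
  ring

/-- the total length -/
noncomputable def Flow.Len {ι J R : Type} [Fintype ι] [DecidableEq J] [DecidableEq R]
    (F : Flow ι J R) (t : ℝ) : ℝ := ∑ i, ∫ x in (0 : ℝ)..1, ‖F.γx i t x‖

/-- the dissipation -/
noncomputable def Flow.Dis {ι J R : Type} [Fintype ι] [DecidableEq J] [DecidableEq R]
    (F : Flow ι J R) (t : ℝ) : ℝ :=
  ∑ i, ∫ x in (0 : ℝ)..1, curv (F.γx i t x) (F.γxx i t x) ^ 2 * ‖F.γx i t x‖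

theorem conj_tau_mul {p : ℂ} (hp : p ≠ 0) : conj (tau p) * p = (‖p‖ : ℂ) := by
  have h1 : conj (tau p) * ((‖p‖ : ℂ) * tau p) = (‖p‖ : ℂ) * (conj (tau p) * tau p) := by ring
  rw [norm_mul_tau, conj_mul_self_of_norm (norm_tau hp), mul_one] at h1
  exact h1

theorem cont_tau {X : Type*} [TopologicalSpace X] {f : X → ℂ} {s : Set X} (hf : ContinuousOn f s)
    (h0 : ∀ x ∈ s, f x ≠ 0) : ContinuousOn (fun x => tau (f x)) s := by
  unfold tau
  refine hf.div (Complex.continuous_ofReal.comp_continuousOn hf.norm) fun x hx => ?_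
  exact_mod_cast norm_ne_zero_iff.2 (h0 x hx)

theorem cont_curv {X : Type*} [TopologicalSpace X] {f g : X → ℂ} {s : Set X}
    (hf : ContinuousOn f s) (hg : ContinuousOn g s)
    (h0 : ∀ x ∈ s, f x ≠ 0) : ContinuousOn (fun x => curv (f x) (g x)) s := by
  unfold curv
  refine ContinuousOn.div ?_ (hf.norm.pow 3) fun x hx => pow_ne_zero _ (norm_ne_zero_iff.2 (h0 x hx))
  exact Complex.continuous_im.comp_continuousOn
    ((Complex.continuous_conj.comp_continuousOn hf).mul hg)

section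

variable {ι J R : Type} [Fintype ι] [DecidableEq J] [DecidableEq R] [Fintype J] [Fintype R]
  (F : Flow ι J R)

/-- the velocities at the ends -/
theorem Flow.vel_eq (a b : ι × Bool) (t : ℝ) (ht : 0 < t) (hab : F.ends a = F.ends b) :
    F.γt a.1 t (par a.2) = F.γt b.1 t (par b.2) := by
  have ha : par a.2 ∈ Icc (0 : ℝ) 1 := by
    unfold par
    split_ifs <;> simp
  have hb : par b.2 ∈ Icc (0 : ℝ) 1 := by
    unfold par
    split_ifs <;> simp
  have h1 := (F.crv a.1).ht t _ ht ha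
  have h2 := (F.crv b.1).ht t _ ht hb
  refine h1.unique (h2.congr_of_eventuallyEq ?_)
  filter_upwards [lt_mem_nhds ht] with s hs
  exact F.glue a b s hs hab

theorem Flow.vel_fixed (a : ι × Bool) (r : R) (t : ℝ) (ht : 0 < t)
    (ha : F.ends a = Sum.inr r) : F.γt a.1 t (par a.2) = 0 := by
  have ha' : par a.2 ∈ Icc (0 : ℝ) 1 := by
    unfold par
    split_ifs <;> simp
  have h1 := (F.crv a.1).ht t _ ht ha'
  refine h1.unique ((hasDerivAt_const t (F.P r)).congr_of_eventuallyEq ?_)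
  filter_upwards [lt_mem_nhds ht] with s hs
  exact F.fixed a r s hs ha

theorem Flow.len_deriv (t : ℝ) (ht : 0 < t) : HasDerivAt F.Len (-F.Dis t) t := by
  have h1 : ∀ i ∈ (Finset.univ : Finset ι), HasDerivAt
      (fun s => ∫ x in (0 : ℝ)..1, ‖F.γx i s x‖)
      ((conj (tau (F.γx i t 1)) * F.γt i t 1).re - (conj (tau (F.γx i t 0)) * F.γt i t 0).re -
        ∫ x in (0 : ℝ)..1, (conj ((curv (F.γx i t x) (F.γxx i t x) : ℂ) * Complex.I *
          F.γx i t x) * F.γt i t x).re) t := by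
    intro i _
    have hne : ∀ z ∈ (Ioi (0 : ℝ) ×ˢ Icc (0 : ℝ) 1 : Set (ℝ × ℝ)), F.γx i z.1 z.2 ≠ 0 :=
      fun z hz => (F.crv i).reg z.1 z.2 hz.1 hz.2
    refine fv_proof (F.γ i) (F.γx i) (F.γxx i) (F.γt i) (F.crv i) (Ioi 0) isOpen_Ioi
      (Subset.refl _) (fun s x => ‖F.γx i s x‖) (fun s x => tau (F.γx i s x))
      (fun s x => (curv (F.γx i s x) (F.γxx i s x) : ℂ) * Complex.I * F.γx i s x)
      (F.crv i).cx.norm ?_ (cont_tau (F.crv i).cx hne) ?_ ?_ t ht
    · intro s hs x hx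
      exact hasDeriv_tau ((F.crv i).hxx s x hs hx) ((F.crv i).reg s x hs hx)
    · exact ((Complex.continuous_ofReal.comp_continuousOn
        (cont_curv (F.crv i).cx (F.crv i).cxx hne)).mul continuousOn_const).mul (F.crv i).cx
    · intro s hs r hr x hx
      have h2 := (F.crv i).reg s x hs hx
      rw [mul_sub, Complex.sub_re, conj_tau_mul h2, Complex.ofReal_re]
      have h3 : (conj (tau (F.γx i s x)) * F.γx i r x).re ≤ ‖F.γx i r x‖ := by
        refine (Complex.re_le_norm _).trans ?_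
        rw [norm_mul, Complex.norm_conj, norm_tau h2, one_mul]
      linarith
  have h2 := HasDerivAt.fun_sum h1
  unfold Flow.Len
  refine h2.congr_deriv ?_
  rw [Finset.sum_sub_distrib]
  have h3 : ∑ i, ((conj (tau (F.γx i t 1)) * F.γt i t 1).re -
      (conj (tau (F.γx i t 0)) * F.γt i t 0).re) = 0 := by
    have h4 := ends_sum_re F.ends (fun a => tau (F.γx a.1 t (par a.2)))
      (fun a => F.γt a.1 t (par a.2)) (fun j => F.angle j t ht)
      (fun a b hab => F.vel_eq a b t ht hab) (fun a r ha => F.vel_fixed a r t ht ha)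
    simpa [par] using h4
  rw [h3, zero_sub]
  unfold Flow.Dis
  congr 1
  refine Finset.sum_congr rfl fun i _ => ?_
  refine intervalIntegral.integral_congr fun x hx => ?_
  rw [uIcc_of_le zero_le_one] at hx
  have h5 := (F.crv i).reg t x ht hx
  rw [F.motion i t x ht hx]
  set k := curv (F.γx i t x) (F.γxx i t x) with hk
  set p := F.γx i t x with hp
  have h6 : conj ((k : ℂ) * Complex.I * p) * (((k : ℂ) * Complex.I + (F.lam i t x : ℂ)) * tau p) =
      ((k : ℂ) * (-Complex.I) * ((k : ℂ) * Complex.I + (F.lam i t x : ℂ))) * (conj p * tau p) := by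
    rw [map_mul, map_mul, Complex.conj_ofReal, Complex.conj_I]
    ring
  have h7 : conj p * tau p = (‖p‖ : ℂ) := by
    have := congrArg conj (conj_tau_mul h5)
    rw [map_mul, Complex.conj_conj, Complex.conj_ofReal, mul_comm] at this
    exact this
  rw [h6, h7]
  have h8 : (k : ℂ) * (-Complex.I) * ((k : ℂ) * Complex.I + (F.lam i t x : ℂ)) * (‖p‖ : ℂ) =
      ((k ^ 2 * ‖p‖ : ℝ) : ℂ) + ((-(k * F.lam i t x * ‖p‖) : ℝ) : ℂ) * Complex.I := by
    push_cast
    linear_combination (-(k : ℂ) ^ 2 * (‖p‖ : ℂ)) * Complex.I_sq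
  rw [h8, Complex.add_re, Complex.ofReal_re, Complex.re_ofReal_mul, Complex.I_re, mul_zero,
    add_zero]

theorem Flow.dis_nonneg (t : ℝ) : 0 ≤ F.Dis t := by
  refine Finset.sum_nonneg fun i _ => ?_
  refine intervalIntegral.integral_nonneg zero_le_one fun x _ => ?_
  positivity

theorem Flow.len_nonneg (t : ℝ) : 0 ≤ F.Len t := by
  refine Finset.sum_nonneg fun i _ => ?_
  exact intervalIntegral.integral_nonneg zero_le_one fun x _ => norm_nonneg _

theorem Flow.len_anti {s t : ℝ} (hs : 0 < s) (hst : s ≤ t) : F.Len t ≤ F.Len s := by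
  have h1 : AntitoneOn F.Len (Ioi 0) := by
    refine antitoneOn_of_deriv_nonpos (convex_Ioi 0) ?_ ?_ ?_
    · intro u hu
      exact (F.len_deriv u hu).continuousAt.continuousWithinAt
    · intro u hu
      rw [interior_Ioi] at hu
      exact (F.len_deriv u hu).differentiableAt.differentiableWithinAt
    · intro u hu
      rw [interior_Ioi] at hu
      rw [(F.len_deriv u hu).deriv]
      have := F.dis_nonneg u
      linarith
  exact h1 (mem_Ioi.2 hs) (mem_Ioi.2 (hs.trans_le hst)) hst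

/-- there are late times with small dissipation -/
theorem Flow.good_time (c : ℝ) (hc : 0 < c) (T : ℝ) (hT : 0 < T) : ∃ t, T ≤ t ∧ F.Dis t < c := by
  by_contra hcon
  push Not at hcon
  set t := T + (F.Len T + 1) / c with ht
  have hL := F.len_nonneg T
  have hpos : 0 < (F.Len T + 1) / c := by positivity
  have hTt : T < t := by linarith
  obtain ⟨u, hu, hu2⟩ := exists_hasDerivAt_eq_slope F.Len (fun s => -F.Dis s) hTt
    (fun s hs => (F.len_deriv s (hT.trans_le hs.1)).continuousAt.continuousWithinAt)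
    (fun s hs => F.len_deriv s (hT.trans hs.1))
  have h1 := hcon u hu.1.le
  have h2 : F.Len t - F.Len T = -F.Dis u * (t - T) := by
    rw [hu2]
    field_simp [(sub_pos.2 hTt).ne']
  have h3 : t - T = (F.Len T + 1) / c := by rw [ht]; ring
  have h4 := F.len_nonneg t
  have h5 : F.Dis u * (t - T) ≥ F.Len T + 1 := by
    rw [h3]
    calc F.Dis u * ((F.Len T + 1) / c) ≥ c * ((F.Len T + 1) / c) :=
          mul_le_mul_of_nonneg_right h1 hpos.le
      _ = F.Len T + 1 := by field_simp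
  nlinarith

end

end Pool.Agent.NF
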