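import Pool.Agent.Lib_helper34.NF.Dir

/-!
# The maximum principle for the tangent direction
-/

set_option autoImplicit false
set_option linter.unusedSectionVars false

namespace Pool.Agent.NF

open Set Filter Topology MeasureTheory ComplexConjugate

/-! ### the cut-off functions -/

noncomputable def gp (s : ℝ) : ℝ := (max s 0) ^ 3
noncomputable def gp1 (s : ℝ) : ℝ := 3 * (max s 0) ^ 2
noncomputable def gp2 (s : ℝ) : ℝ := 6 * max s 0

theorem gp_deriv (s : ℝ) : HasDerivAt gp (gp1 s) s := by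
  rcases lt_trichotomy s 0 with h | h | h
  · have h1 : HasDerivAt (fun _ : ℝ => (0 : ℝ)) 0 s := hasDerivAt_const s 0
    have h2 : gp1 s = 0 := by
      unfold gp1
      rw [max_eq_right h.le]
      norm_num
    rw [h2]
    refine h1.congr_of_eventuallyEq ?_
    filter_upwards [gt_mem_nhds h] with y hy
    unfold gp
    rw [max_eq_right (le_of_lt hy)]
    norm_num
  · subst h
    have h2 : gp1 0 = 0 := by
      unfold gp1
      norm_num
    rw [h2, hasDerivAt_iff_isLittleO_nhds_zero]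
    have h3 : (fun h : ℝ => gp (0 + h) - gp 0 - h • (0 : ℝ)) =O[𝓝 0] fun h : ℝ => h ^ 2 := by
      rw [Asymptotics.isBigO_iff]
      refine ⟨1, ?_⟩
      filter_upwards [Metric.ball_mem_nhds (0 : ℝ) one_pos] with y hy
      rw [mem_ball_zero_iff, Real.norm_eq_abs] at hy
      unfold gp
      rw [zero_add, max_self, smul_zero, sub_zero, Real.norm_eq_abs, Real.norm_eq_abs, one_mul]
      have h4 : 0 ≤ max y 0 := le_max_right _ _
      have h5 : max y 0 ≤ |y| := max_le (le_abs_self y) (abs_nonneg y)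
      rw [zero_pow (by norm_num), sub_zero, abs_of_nonneg (by positivity), abs_of_nonneg (by positivity)]
      calc (max y 0) ^ 3 ≤ |y| ^ 3 := pow_le_pow_left₀ h4 h5 3
        _ = |y| * |y| ^ 2 := by ring
        _ ≤ 1 * |y| ^ 2 := mul_le_mul_of_nonneg_right hy.le (by positivity)
        _ = y ^ 2 := by rw [one_mul, sq_abs]
    refine h3.trans_isLittleO ?_
    have h6 : (fun h : ℝ => h ^ 2) =o[𝓝 0] fun h : ℝ => h ^ 1 :=
      Asymptotics.isLittleO_pow_pow (by norm_num)
    simpa using h6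
  · have h1 : HasDerivAt (fun y : ℝ => y ^ 3) (3 * s ^ 2) s := by
      simpa using hasDerivAt_pow 3 s
    have h2 : gp1 s = 3 * s ^ 2 := by
      unfold gp1
      rw [max_eq_left h.le]
    rw [h2]
    refine h1.congr_of_eventuallyEq ?_
    filter_upwards [lt_mem_nhds h] with y hy
    unfold gp
    rw [max_eq_left (le_of_lt hy)]

theorem gp1_deriv (s : ℝ) : HasDerivAt gp1 (gp2 s) s := by
  rcases lt_trichotomy s 0 with h | h | h
  · have h1 : HasDerivAt (fun _ : ℝ => (0 : ℝ)) 0 s := hasDerivAt_const s 0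
    have h2 : gp2 s = 0 := by
      unfold gp2
      rw [max_eq_right h.le]
      norm_num
    rw [h2]
    refine h1.congr_of_eventuallyEq ?_
    filter_upwards [gt_mem_nhds h] with y hy
    unfold gp1
    rw [max_eq_right (le_of_lt hy)]
    norm_num
  · subst h
    have h2 : gp2 0 = 0 := by
      unfold gp2
      norm_num
    rw [h2, hasDerivAt_iff_isLittleO_nhds_zero]
    have h3 : (fun h : ℝ => gp1 (0 + h) - gp1 0 - h • (0 : ℝ)) =O[𝓝 0] fun h : ℝ => h ^ 2 := by
      rw [Asymptotics.isBigO_iff]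
      refine ⟨3, Eventually.of_forall fun y => ?_⟩
      unfold gp1
      rw [zero_add, max_self, smul_zero, sub_zero, Real.norm_eq_abs, Real.norm_eq_abs]
      have h4 : 0 ≤ max y 0 := le_max_right _ _
      have h5 : max y 0 ≤ |y| := max_le (le_abs_self y) (abs_nonneg y)
      rw [zero_pow (by norm_num), mul_zero, sub_zero, abs_of_nonneg (by positivity),
        abs_of_nonneg (by positivity)]
      have h7 := pow_le_pow_left₀ h4 h5 2
      rw [sq_abs] at h7
      linarith
    refine h3.trans_isLittleO ?_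
    have h6 : (fun h : ℝ => h ^ 2) =o[𝓝 0] fun h : ℝ => h ^ 1 :=
      Asymptotics.isLittleO_pow_pow (by norm_num)
    simpa using h6
  · have h1 : HasDerivAt (fun y : ℝ => 3 * y ^ 2) (3 * (2 * s)) s := by
      have := (hasDerivAt_pow 2 s).const_mul (3 : ℝ)
      simpa using this
    have h2 : gp2 s = 3 * (2 * s) := by
      unfold gp2
      rw [max_eq_left h.le]
      ring
    rw [h2]
    refine h1.congr_of_eventuallyEq ?_
    filter_upwards [lt_mem_nhds h] with y hy
    unfold gp1
    rw [max_eq_left (le_of_lt hy)]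

theorem gp_conv (a b : ℝ) : gp a + gp1 a * (b - a) ≤ gp b := by
  unfold gp gp1
  have hb : b ≤ max b 0 := le_max_left _ _
  have hb0 : 0 ≤ max b 0 := le_max_right _ _
  rcases le_total a 0 with h | h
  · rw [max_eq_right h]
    have : 0 ≤ (max b 0) ^ 3 := by positivity
    nlinarith
  · rw [max_eq_left h]
    set β := max b 0
    have h1 : 0 ≤ (β - a) ^ 2 * (β + 2 * a) := by positivity
    have h2 : 3 * a ^ 2 * b ≤ 3 * a ^ 2 * β := mul_le_mul_of_nonneg_left hb (by positivity)
    nlinarith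

noncomputable def gg (c m : ℝ) : ℝ := gp (m - c) + gp (-m - c)
noncomputable def gg1 (c m : ℝ) : ℝ := gp1 (m - c) - gp1 (-m - c)
noncomputable def gg2 (c m : ℝ) : ℝ := gp2 (m - c) + gp2 (-m - c)

theorem gg_conv (c m n : ℝ) : gg c m + gg1 c m * (n - m) ≤ gg c n := by
  unfold gg gg1
  have h1 := gp_conv (m - c) (n - c)
  have h2 := gp_conv (-m - c) (-n - c)
  linarith [h1, h2]

theorem gg1_deriv (c m : ℝ) : HasDerivAt (gg1 c) (gg2 c m) m := by
  unfold gg2
  have e1 : HasDerivAt (fun y : ℝ => y - c) 1 m := (hasDerivAt_id' m).sub_const c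
  have e2 : HasDerivAt (fun y : ℝ => -y - c) (-1) m := (hasDerivAt_id' m).neg.sub_const c
  have h1 : HasDerivAt (fun y : ℝ => gp1 (y - c)) (gp2 (m - c) * 1) m :=
    HasDerivAt.comp (h₂ := gp1) (h := fun y => y - c) m (gp1_deriv (m - c)) e1
  have h2 : HasDerivAt (fun y : ℝ => gp1 (-y - c)) (gp2 (-m - c) * -1) m :=
    HasDerivAt.comp (h₂ := gp1) (h := fun y => -y - c) m (gp1_deriv (-m - c)) e2
  refine (h1.sub h2).congr_deriv ?_
  ring

theorem gg_deriv (c m : ℝ) : HasDerivAt (gg c) (gg1 c m) m := by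
  unfold gg1
  have e1 : HasDerivAt (fun y : ℝ => y - c) 1 m := (hasDerivAt_id' m).sub_const c
  have e2 : HasDerivAt (fun y : ℝ => -y - c) (-1) m := (hasDerivAt_id' m).neg.sub_const c
  have h1 : HasDerivAt (fun y : ℝ => gp (y - c)) (gp1 (m - c) * 1) m :=
    HasDerivAt.comp (h₂ := gp) (h := fun y => y - c) m (gp_deriv (m - c)) e1
  have h2 : HasDerivAt (fun y : ℝ => gp (-y - c)) (gp1 (-m - c) * -1) m :=
    HasDerivAt.comp (h₂ := gp) (h := fun y => -y - c) m (gp_deriv (-m - c)) e2
  refine (h1.add h2).congr_deriv ?_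
  ring

theorem gg_nonneg (c m : ℝ) : 0 ≤ gg c m := by
  unfold gg gp
  positivity

theorem gg2_nonneg (c m : ℝ) : 0 ≤ gg2 c m := by
  unfold gg2 gp2
  positivity

theorem gg_zero {c m : ℝ} (h : |m| ≤ c) : gg c m = 0 := by
  obtain ⟨h1, h2⟩ := abs_le.1 h
  unfold gg gp
  rw [max_eq_right (by linarith), max_eq_right (by linarith)]
  norm_num

theorem le_of_gg_zero {c m : ℝ} (h : gg c m = 0) : |m| ≤ c := by
  unfold gg gp at h
  have h1 : 0 ≤ max (m - c) 0 := le_max_right _ _
  have h2 : 0 ≤ max (-m - c) 0 := le_max_right _ _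
  have h3 : (max (m - c) 0) ^ 3 = 0 := by
    have := pow_nonneg h1 3
    have := pow_nonneg h2 3
    linarith
  have h4 : (max (-m - c) 0) ^ 3 = 0 := by
    have := pow_nonneg h1 3
    have := pow_nonneg h2 3
    linarith
  have h5 := pow_eq_zero_iff (n := 3) (by norm_num) |>.1 h3
  have h6 := pow_eq_zero_iff (n := 3) (by norm_num) |>.1 h4
  have h7 : m - c ≤ 0 := by rw [← h5]; exact le_max_left _ _
  have h8 : -m - c ≤ 0 := by rw [← h6]; exact le_max_left _ _
  exact abs_le.2 ⟨by linarith, by linarith⟩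

theorem cont_gp : Continuous gp := by
  unfold gp
  fun_prop

theorem cont_gp1 : Continuous gp1 := by
  unfold gp1
  fun_prop

theorem cont_gp2 : Continuous gp2 := by
  unfold gp2
  fun_prop

theorem cont_gg (c : ℝ) : Continuous (gg c) := by
  unfold gg
  exact (cont_gp.comp (continuous_id.sub continuous_const)).add
    (cont_gp.comp (continuous_neg.sub continuous_const))

theorem cont_gg1 (c : ℝ) : Continuous (gg1 c) := by
  unfold gg1
  exact (cont_gp1.comp (continuous_id.sub continuous_const)).sub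
    (cont_gp1.comp (continuous_neg.sub continuous_const))

theorem cont_gg2 (c : ℝ) : Continuous (gg2 c) := by
  unfold gg2
  exact (cont_gp2.comp (continuous_id.sub continuous_const)).add
    (cont_gp2.comp (continuous_neg.sub continuous_const))

/-! ### slopes -/

/-- the slope of `p` relative to the direction `w` -/
noncomputable def slp (w p : ℂ) : ℝ := (conj w * p).im / (conj w * p).re

theorem rot_eq {w p : ℂ} (hw : ‖w‖ = 1) : w * (conj w * p) = p := by
  rw [← mul_assoc, mul_comm w, conj_mul_self_of_norm hw, one_mul]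

theorem hasDeriv_slp {f : ℝ → ℂ} {f' w : ℂ} {s : Set ℝ} {x : ℝ} (h : HasDerivWithinAt f f' s x)
    (hw : ‖w‖ = 1) (h0 : (conj w * f x).re ≠ 0) :
    HasDerivWithinAt (fun y => slp w (f y))
      (curv (f x) f' * ‖f x‖ ^ 3 / (conj w * f x).re ^ 2) s x := by
  have h1 := h.const_mul (conj w)
  have h2 := (hasDeriv_im h1).div (hasDeriv_re h1) h0
  refine h2.congr_deriv ?_
  have hf0 : f x ≠ 0 := by
    intro hf
    rw [hf, mul_zero, Complex.zero_re] at h0
    exact h0 rfl
  have hn : ‖f x‖ ≠ 0 := norm_ne_zero_iff.2 hf0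
  congr 1
  unfold curv
  rw [div_mul_cancel₀ _ (pow_ne_zero _ hn)]
  have hww : w.re ^ 2 + w.im ^ 2 = 1 := by
    have := Complex.sq_norm w
    rw [hw, Complex.normSq_apply] at this
    nlinarith
  simp only [Complex.mul_im, Complex.mul_re, Complex.conj_re, Complex.conj_im]
  linear_combination ((f x).re * f'.im - (f x).im * f'.re) * hww

section

variable {ι J R : Type} [Fintype ι] [DecidableEq J] [DecidableEq R] [Fintype J] [Fintype R]
  (F : Flow ι J R)

/-- the certificate: limit directions -/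
structure Flow.Cert (ω : ι → ℂ) : Prop where
  unit : ∀ i, ‖ω i‖ = 1
  sum : ∀ j : J, ∑ a ∈ Finset.univ.filter (fun a : ι × Bool => F.ends a = Sum.inl j),
      (sg a.2 : ℂ) * ω a.1 = 0

/-- all tangents are within 60 degrees of the limit directions -/
def Flow.Near (ω : ι → ℂ) (t : ℝ) : Prop :=
  ∀ i, ∀ x ∈ Icc (0 : ℝ) 1, ‖F.γx i t x‖ < 2 * (conj (ω i) * F.γx i t x).re

/-- all slopes are at most `c` -/
def Flow.Good (ω : ι → ℂ) (c t : ℝ) : Prop :=
  ∀ i, ∀ x ∈ Icc (0 : ℝ) 1, 0 ≤ (conj (ω i) * F.γx i t x).re ∧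
    |(conj (ω i) * F.γx i t x).im| ≤ c * (conj (ω i) * F.γx i t x).re

variable {F} {ω : ι → ℂ}

theorem Flow.Near.re_pos {t : ℝ} (h : F.Near ω t) (i : ι) {x : ℝ} (hx : x ∈ Icc (0 : ℝ) 1) :
    0 < (conj (ω i) * F.γx i t x).re := by
  have h1 := h i x hx
  have h2 := norm_nonneg (F.γx i t x)
  linarith

theorem Flow.Cert.norm_rot (hω : F.Cert ω) (i : ι) (p : ℂ) : ‖conj (ω i) * p‖ = ‖p‖ := by
  rw [norm_mul, Complex.norm_conj, hω.unit i, one_mul]

theorem Flow.Good.near (hω : F.Cert ω) {c t : ℝ} (hc1 : c ≤ 1) (ht : 0 < t)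
    (h : F.Good ω c t) : F.Near ω t := by
  intro i x hx
  obtain ⟨hre, h1⟩ := h i x hx
  have h0 := (F.crv i).reg t x ht hx
  set p := conj (ω i) * F.γx i t x with hp
  have hn : ‖F.γx i t x‖ = ‖p‖ := (hω.norm_rot i _).symm
  rw [hn]
  have hp0 : 0 < ‖p‖ := by
    rw [← hn]
    exact norm_pos_iff.2 h0
  have h2 : ‖p‖ ^ 2 = p.re ^ 2 + p.im ^ 2 := by
    rw [Complex.sq_norm, Complex.normSq_apply]
    ring
  have h3 : |p.im| ≤ p.re := h1.trans (by nlinarith)
  have h4 : p.im ^ 2 ≤ p.re ^ 2 := by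
    rw [← sq_abs p.im]
    exact pow_le_pow_left₀ (abs_nonneg _) h3 2
  have hre' : 0 < p.re := by
    rcases hre.lt_or_eq with h5 | h5
    · exact h5
    · exfalso
      rw [← h5] at h4
      nlinarith [sq_nonneg p.im]
  nlinarith

/-- the rotated unit tangents at the ends of a 3-point agree -/
theorem Flow.Near.rot_eq (hω : F.Cert ω) {t : ℝ} (ht : 0 < t) (h : F.Near ω t) (j : J)
    {a b : ι × Bool} (ha : F.ends a = Sum.inl j) (hb : F.ends b = Sum.inl j) :
    conj (ω a.1) * tau (F.γx a.1 t (par a.2)) = conj (ω b.1) * tau (F.γx b.1 t (par b.2)) := by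
  classical
  obtain ⟨e₀, e₁, e₂, h01, h02, h12, hE⟩ := Finset.card_eq_three.1 (F.three j)
  set T : ι × Bool → ℂ := fun a => (sg a.2 : ℂ) * tau (F.γx a.1 t (par a.2)) with hT
  set S : ι × Bool → ℂ := fun a => (sg a.2 : ℂ) * ω a.1 with hS
  have nsg : ∀ b : Bool, ‖(sg b : ℂ)‖ = 1 := by
    intro b
    cases b <;> simp [sg]
  have nT : ∀ a, ‖T a‖ = 1 := by
    intro a
    rw [hT]
    simp only
    rw [norm_mul, nsg, one_mul]
    exact norm_tau ((F.crv a.1).reg t _ ht (par_mem a.2))
  have nS : ∀ a, ‖S a‖ = 1 := by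
    intro a
    rw [hS]
    simp only
    rw [norm_mul, nsg, one_mul]
    exact hω.unit a.1
  have sT : T e₀ + T e₁ + T e₂ = 0 := by
    have h1 := F.angle j t ht
    rw [hE, Finset.sum_insert (by simp [h01, h02]), Finset.sum_insert (by simp [h12]),
      Finset.sum_singleton, ← add_assoc] at h1
    exact h1
  have sS : S e₀ + S e₁ + S e₂ = 0 := by
    have h1 := hω.sum j
    rw [hE, Finset.sum_insert (by simp [h01, h02]), Finset.sum_insert (by simp [h12]),
      Finset.sum_singleton, ← add_assoc] at h1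
    exact h1
  have hST : ∀ a, conj (S a) * T a = conj (ω a.1) * tau (F.γx a.1 t (par a.2)) := by
    intro a
    rw [hT, hS]
    simp only
    rw [map_mul, Complex.conj_ofReal]
    have h1 : (sg a.2 : ℂ) * (sg a.2 : ℂ) = 1 := by exact_mod_cast sg_mul_self a.2
    linear_combination (conj (ω a.1) * tau (F.γx a.1 t (par a.2))) * h1
  have hz : ∀ a, 1 / 2 < (conj (S a) * T a).re := by
    intro a
    rw [hST]
    have h1 := h a.1 (par a.2) (par_mem a.2)
    have h2 : 0 < ‖F.γx a.1 t (par a.2)‖ := norm_pos_iff.2 ((F.crv a.1).reg t _ ht (par_mem a.2))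
    have h3 : (conj (ω a.1) * F.γx a.1 t (par a.2)).re =
        ‖F.γx a.1 t (par a.2)‖ * (conj (ω a.1) * tau (F.γx a.1 t (par a.2))).re := by
      rw [← Complex.re_ofReal_mul]
      congr 1
      nth_rewrite 1 [← norm_mul_tau (F.γx a.1 t (par a.2))]
      ring
    rw [h3] at h1
    by_contra hcon
    push Not at hcon
    nlinarith
  have e01 : conj (S e₀) * T e₀ = conj (S e₁) * T e₁ :=
    vtx (nT _) (nT _) (nT _) (nS _) (nS _) (nS _) sT sS (hz _) (hz _)
  have e02 : conj (S e₀) * T e₀ = conj (S e₂) * T e₂ :=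
    vtx (nT _) (nT _) (nT e₁) (nS _) (nS _) (nS e₁) (by rw [← sT]; ring) (by rw [← sS]; ring)
      (hz _) (hz _)
  have hall : ∀ a, F.ends a = Sum.inl j → conj (S a) * T a = conj (S e₀) * T e₀ := by
    intro a ha
    have h1 : a ∈ Finset.univ.filter (fun a : ι × Bool => F.ends a = Sum.inl j) :=
      Finset.mem_filter.2 ⟨Finset.mem_univ _, ha⟩
    rw [hE, Finset.mem_insert, Finset.mem_insert, Finset.mem_singleton] at h1
    rcases h1 with h1 | h1 | h1
    · rw [h1]
    · rw [h1, e01]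
    · rw [h1, e02]
  rw [← hST a, ← hST b, hall a ha, hall b hb]

theorem slp_tau {w p : ℂ} (hp : p ≠ 0) : slp w p = slp w (tau p) := by
  unfold slp
  have h1 : conj w * p = (‖p‖ : ℂ) * (conj w * tau p) := by
    nth_rewrite 1 [← norm_mul_tau p]
    ring
  rw [h1, Complex.re_ofReal_mul, Complex.im_ofReal_mul]
  exact mul_div_mul_left _ _ (norm_ne_zero_iff.2 hp)

/-- the slopes at the ends of a 3-point agree -/
theorem Flow.Near.slp_eq (hω : F.Cert ω) {t : ℝ} (ht : 0 < t) (h : F.Near ω t) (j : J)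
    {a b : ι × Bool} (ha : F.ends a = Sum.inl j) (hb : F.ends b = Sum.inl j) :
    slp (ω a.1) (F.γx a.1 t (par a.2)) = slp (ω b.1) (F.γx b.1 t (par b.2)) := by
  rw [slp_tau ((F.crv a.1).reg t _ ht (par_mem a.2)),
    slp_tau ((F.crv b.1).reg t _ ht (par_mem b.2))]
  unfold slp
  rw [h.rot_eq hω ht j ha hb]

/-- the condition `Near` is open in time -/
theorem Flow.Near.eventually {t : ℝ} (ht : 0 < t) (h : F.Near ω t) :
    ∀ᶠ s in 𝓝 t, F.Near ω s := by
  unfold Flow.Near
  rw [eventually_all]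
  intro i
  set cl : ℝ → ℝ := fun x => max 0 (min x 1) with hcl
  have hclc : Continuous cl := continuous_const.max (continuous_id.min continuous_const)
  have hclm : ∀ x, cl x ∈ Icc (0 : ℝ) 1 := fun x =>
    ⟨le_max_left _ _, max_le zero_le_one (min_le_right _ _)⟩
  have hcli : ∀ x ∈ Icc (0 : ℝ) 1, cl x = x := fun x hx => by
    rw [hcl]
    simp only
    rw [min_eq_left hx.2, max_eq_right hx.1]
  have hcont : ContinuousOn (fun z : ℝ × ℝ => 2 * (conj (ω i) * F.γx i z.1 (cl z.2)).re -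
      ‖F.γx i z.1 (cl z.2)‖) (Ioi (0 : ℝ) ×ˢ (univ : Set ℝ)) := by
    have h1 : ContinuousOn (fun z : ℝ × ℝ => F.γx i z.1 (cl z.2))
        (Ioi (0 : ℝ) ×ˢ (univ : Set ℝ)) := by
      refine (F.crv i).cx.comp (f := fun z : ℝ × ℝ => (z.1, cl z.2)) ?_ ?_
      · exact (continuous_fst.prodMk (hclc.comp continuous_snd)).continuousOn
      · intro z hz
        exact mk_mem_prod hz.1 (hclm z.2)
    refine ContinuousOn.sub ?_ h1.norm
    exact continuousOn_const.mul (Complex.continuous_re.comp_continuousOn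
      (continuousOn_const.mul h1))
  have h2 := (isCompact_Icc (a := (0 : ℝ)) (b := 1)).eventually_forall_of_forall_eventually
    (x₀ := t) (P := fun s x => 0 < 2 * (conj (ω i) * F.γx i s (cl x)).re -
      ‖F.γx i s (cl x)‖) (by
      intro x hx
      have h3 : ContinuousAt (fun z : ℝ × ℝ => 2 * (conj (ω i) * F.γx i z.1 (cl z.2)).re -
          ‖F.γx i z.1 (cl z.2)‖) (t, x) := by
        refine hcont.continuousAt ?_
        exact prod_mem_nhds (Ioi_mem_nhds ht) univ_mem
      refine h3.eventually (lt_mem_nhds ?_)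
      simp only
      rw [hcli x hx]
      have := h i x hx
      linarith)
  filter_upwards [h2] with s hs x hx
  have h4 := hs x hx
  rw [hcli x hx] at h4
  linarith

end

end Pool.Agent.NF
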