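import Pool.Agent.Lib_helper34.NF.Energy

/-!
# Positions of the vertices, cone conditions, the highest vertex argument
-/

set_option autoImplicit false
set_option linter.unusedSectionVars false

namespace Pool.Agent.NF

open Set Filter Topology MeasureTheory ComplexConjugate

section

variable {ι J R : Type} [Fintype ι] [DecidableEq J] [DecidableEq R] [Fintype J] [Fintype R]
  {F : Flow ι J R} {ω : ι → ℂ}

/-- full certificate: limit directions with the slopes of all late times small -/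
structure Flow.Lim (F : Flow ι J R) (ω : ι → ℂ) : Prop where
  cert : F.Cert ω
  good : ∀ c : ℝ, 0 < c → ∃ T : ℝ, 0 < T ∧ ∀ t, T ≤ t → F.Good ω c t

theorem Flow.exists_lim (F : Flow ι J R) : ∃ ω : ι → ℂ, F.Lim ω := by
  obtain ⟨ω, h1, h2, h3⟩ := F.exists_dir
  refine ⟨ω, ⟨h1, h2⟩, ?_⟩
  have key : ∀ c : ℝ, 0 < c → c ≤ 1 → ∃ T : ℝ, 0 < T ∧ ∀ t, T ≤ t → F.Good ω c t := by
    intro c hc hc1
    obtain ⟨t, -, ht, hd⟩ := h3 (c / 2) (by positivity) 0
    refine ⟨t, ht, fun s hs => Flow.Good.forever ⟨h1, h2⟩ hc1 ht ?_ s hs⟩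
    intro i x hx
    have h4 := hd i x hx
    have h5 : conj (ω i) * F.γx i t x = (‖F.γx i t x‖ : ℂ) * (conj (ω i) * tau (F.γx i t x)) := by
      nth_rewrite 1 [← norm_mul_tau (F.γx i t x)]
      ring
    rw [h5, Complex.re_ofReal_mul, Complex.im_ofReal_mul]
    set z := conj (ω i) * tau (F.γx i t x) with hz
    have h6 : ‖z - 1‖ < c / 2 := by
      have h7 : z - 1 = conj (ω i) * (tau (F.γx i t x) - ω i) := by
        rw [mul_sub, conj_mul_self_of_norm (h1 i)]
      rw [h7, norm_mul, Complex.norm_conj, h1 i, one_mul]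
      exact h4
    have h8 : |z.im| < c / 2 := by
      have h9 := Complex.abs_im_le_norm (z - 1)
      rw [Complex.sub_im, Complex.one_im, sub_zero] at h9
      linarith
    have h10 : |z.re - 1| < c / 2 := by
      have h9 := Complex.abs_re_le_norm (z - 1)
      rw [Complex.sub_re, Complex.one_re] at h9
      linarith
    have h11 := (abs_lt.1 h10).1
    have h12 : 0 ≤ z.re := by linarith
    refine ⟨mul_nonneg (norm_nonneg _) h12, ?_⟩
    rw [abs_mul, abs_norm, ← mul_assoc, mul_comm c, mul_assoc]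
    refine mul_le_mul_of_nonneg_left ?_ (norm_nonneg _)
    have h13 : c / 2 ≤ c * z.re := by nlinarith
    linarith
  intro c hc
  rcases le_total c 1 with h | h
  · exact key c hc h
  · obtain ⟨T, hT, hT2⟩ := key 1 one_pos le_rfl
    refine ⟨T, hT, fun t ht i x hx => ?_⟩
    obtain ⟨h4, h5⟩ := hT2 t ht i x hx
    exact ⟨h4, h5.trans (mul_le_mul_of_nonneg_right h h4)⟩

theorem Flow.Lim.near (h : F.Lim ω) : ∃ T : ℝ, 0 < T ∧ ∀ t, T ≤ t → F.Near ω t := by
  obtain ⟨T, hT, h1⟩ := h.good 1 one_pos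
  exact ⟨T, hT, fun t ht => (h1 t ht).near h.cert le_rfl (hT.trans_le ht)⟩

/-- uniform convergence of the tangents -/
theorem Flow.Lim.tau_conv (h : F.Lim ω) (i : ι) (δ : ℝ) (hδ : 0 < δ) :
    ∃ T : ℝ, ∀ t, T ≤ t → ∀ x ∈ Icc (0 : ℝ) 1, ‖tau (F.γx i t x) - ω i‖ < δ := by
  obtain ⟨T, hT, h1⟩ := h.good (min 1 (δ / 2)) (by positivity)
  refine ⟨T, fun t ht x hx => ?_⟩
  have ht0 : 0 < t := hT.trans_le ht
  obtain ⟨h2, h3⟩ := h1 t ht i x hx
  have hn := ((h1 t ht).near h.cert (min_le_left _ _) ht0).re_pos i hx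
  have h5 : conj (ω i) * F.γx i t x = (‖F.γx i t x‖ : ℂ) * (conj (ω i) * tau (F.γx i t x)) := by
    nth_rewrite 1 [← norm_mul_tau (F.γx i t x)]
    ring
  have h0 := (F.crv i).reg t x ht0 hx
  have hnp : 0 < ‖F.γx i t x‖ := norm_pos_iff.2 h0
  rw [h5, Complex.re_ofReal_mul] at hn
  rw [h5, Complex.re_ofReal_mul, Complex.im_ofReal_mul, abs_mul, abs_norm, ← mul_assoc,
    mul_comm (min 1 (δ / 2)), mul_assoc] at h3
  have h3' := le_of_mul_le_mul_left h3 hnp
  set z := conj (ω i) * tau (F.γx i t x) with hz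
  have hre : 0 < z.re := by
    by_contra hcon
    push Not at hcon
    have := mul_nonpos_of_nonneg_of_nonpos hnp.le hcon
    linarith
  have hzn : ‖z‖ = 1 := by
    rw [hz, h.cert.norm_rot i, norm_tau h0]
  have hz2 : z.re ^ 2 + z.im ^ 2 = 1 := by
    have := Complex.sq_norm z
    rw [hzn, Complex.normSq_apply] at this
    nlinarith
  have h7 : z - 1 = conj (ω i) * (tau (F.γx i t x) - ω i) := by
    rw [mul_sub, conj_mul_self_of_norm (h.cert.unit i)]
  have h8 : ‖tau (F.γx i t x) - ω i‖ = ‖z - 1‖ := by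
    rw [h7, h.cert.norm_rot i]
  rw [h8]
  have h9 : ‖z - 1‖ ^ 2 = 2 - 2 * z.re := by
    rw [Complex.sq_norm, Complex.normSq_apply, Complex.sub_re, Complex.sub_im, Complex.one_re,
      Complex.one_im]
    nlinarith
  have hre1 : z.re ≤ 1 := by nlinarith [sq_nonneg z.im]
  set c := min 1 (δ / 2) with hc
  have hc0 : 0 < c := by positivity
  have h10 : z.im ^ 2 ≤ c ^ 2 := by
    rw [← sq_abs]
    refine pow_le_pow_left₀ (abs_nonneg _) (h3'.trans ?_) 2
    calc c * z.re ≤ c * 1 := mul_le_mul_of_nonneg_left hre1 hc0.le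
      _ = c := mul_one c
  have h11 : 1 - z.re ≤ z.im ^ 2 := by nlinarith
  have h12 : ‖z - 1‖ ^ 2 < δ ^ 2 := by
    have h13 : c ≤ δ / 2 := min_le_right _ _
    have h14 : c ^ 2 ≤ (δ / 2) ^ 2 := pow_le_pow_left₀ hc0.le h13 2
    nlinarith [sq_nonneg δ, pow_pos hδ 2]
  exact lt_of_pow_lt_pow_left₀ 2 hδ.le h12

/-- position of the vertices -/
noncomputable def Flow.pos (F : Flow ι J R) (t : ℝ) : J ⊕ R → ℂ
  | Sum.inl j => if h : ∃ a, F.ends a = Sum.inl j then
      F.γ h.choose.1 t (par h.choose.2) else 0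
  | Sum.inr r => F.P r

theorem Flow.pos_ends {t : ℝ} (ht : 0 < t) (a : ι × Bool) :
    F.γ a.1 t (par a.2) = F.pos t (F.ends a) := by
  rcases h : F.ends a with j | r
  · have h1 : ∃ a, F.ends a = Sum.inl j := ⟨a, h⟩
    have h2 : F.pos t (Sum.inl j) = F.γ h1.choose.1 t (par h1.choose.2) := by
      unfold Flow.pos
      exact dif_pos h1
    rw [h2]
    exact F.glue a h1.choose t ht (h.trans h1.choose_spec.symm)
  · exact F.fixed a r t ht h

/-- the chord of a curve -/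
noncomputable def chd (E : ι × Bool → J ⊕ R) (X : J ⊕ R → ℂ) (i : ι) : ℂ :=
  X (E (i, true)) - X (E (i, false))

theorem Flow.chord_eq {t : ℝ} (ht : 0 < t) (i : ι) :
    ∫ x in (0 : ℝ)..1, F.γx i t x = chd F.ends (F.pos t) i := by
  rw [ftc (fun x hx => (F.crv i).hx t x ht hx) (slice (F.crv i).cx ht) (le_refl _) zero_le_one
    (le_refl _)]
  unfold chd
  have h1 := F.pos_ends ht (i, true)
  have h2 := F.pos_ends ht (i, false)
  simp only [par] at h1 h2
  rw [← h1, ← h2]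
  simp

theorem Flow.len_i_le {t : ℝ} (i : ι) : ∫ x in (0 : ℝ)..1, ‖F.γx i t x‖ ≤ F.Len t := by
  unfold Flow.Len
  exact Finset.single_le_sum (f := fun i => ∫ x in (0 : ℝ)..1, ‖F.γx i t x‖)
    (fun i _ => intervalIntegral.integral_nonneg zero_le_one fun x _ => norm_nonneg _)
    (Finset.mem_univ i)

theorem Flow.chord_le {t : ℝ} (ht : 0 < t) (i : ι) : ‖chd F.ends (F.pos t) i‖ ≤ F.Len t := by
  rw [← F.chord_eq ht i]
  exact (intervalIntegral.norm_integral_le_integral_norm zero_le_one).trans (F.len_i_le i)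

/-- cone condition for pieces of curves -/
theorem Flow.Good.cone {c t : ℝ} (ht : 0 < t) (h : F.Good ω c t) (i : ι) {x : ℝ}
    (hx : x ∈ Icc (0 : ℝ) 1) :
    0 ≤ (conj (ω i) * (F.γ i t x - F.γ i t 0)).re ∧
    |(conj (ω i) * (F.γ i t x - F.γ i t 0)).im| ≤
      c * (conj (ω i) * (F.γ i t x - F.γ i t 0)).re := by
  have hc1 := slice (F.crv i).cx ht
  have hsub : Icc 0 x ⊆ Icc (0 : ℝ) 1 := Icc_subset_Icc_right hx.2
  have hI : IntervalIntegrable (fun y => conj (ω i) * F.γx i t y) volume 0 x := by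
    apply ContinuousOn.intervalIntegrable
    rw [uIcc_of_le hx.1]
    exact (continuousOn_const.mul hc1).mono hsub
  have h1 : conj (ω i) * (F.γ i t x - F.γ i t 0) = ∫ y in (0 : ℝ)..x, conj (ω i) * F.γx i t y := by
    rw [intervalIntegral.integral_const_mul,
      ftc (fun x hx => (F.crv i).hx t x ht hx) hc1 (le_refl _) hx.1 hx.2]
  have hre : (∫ y in (0 : ℝ)..x, conj (ω i) * F.γx i t y).re =
      ∫ y in (0 : ℝ)..x, (conj (ω i) * F.γx i t y).re :=
    (Complex.reCLM.intervalIntegral_comp_comm hI).symm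
  have him : (∫ y in (0 : ℝ)..x, conj (ω i) * F.γx i t y).im =
      ∫ y in (0 : ℝ)..x, (conj (ω i) * F.γx i t y).im :=
    (Complex.imCLM.intervalIntegral_comp_comm hI).symm
  rw [h1, hre, him]
  have hIre : IntervalIntegrable (fun y => (conj (ω i) * F.γx i t y).re) volume 0 x := by
    apply ContinuousOn.intervalIntegrable
    rw [uIcc_of_le hx.1]
    exact (Complex.continuous_re.comp_continuousOn (continuousOn_const.mul hc1)).mono hsub
  have hIim : IntervalIntegrable (fun y => |(conj (ω i) * F.γx i t y).im|) volume 0 x := by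
    apply ContinuousOn.intervalIntegrable
    rw [uIcc_of_le hx.1]
    exact ((Complex.continuous_im.comp_continuousOn (continuousOn_const.mul hc1)).abs).mono hsub
  refine ⟨intervalIntegral.integral_nonneg hx.1 fun y hy => (h i y (hsub hy)).1, ?_⟩
  calc |∫ y in (0 : ℝ)..x, (conj (ω i) * F.γx i t y).im|
      ≤ ∫ y in (0 : ℝ)..x, |(conj (ω i) * F.γx i t y).im| :=
        intervalIntegral.abs_integral_le_integral_abs hx.1
    _ ≤ ∫ y in (0 : ℝ)..x, c * (conj (ω i) * F.γx i t y).re :=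
        intervalIntegral.integral_mono_on hx.1 hIim (hIre.const_mul c)
          fun y hy => (h i y (hsub hy)).2
    _ = _ := intervalIntegral.integral_const_mul _ _

theorem Flow.chord_eq' {t : ℝ} (ht : 0 < t) (i : ι) :
    F.γ i t 1 - F.γ i t 0 = chd F.ends (F.pos t) i := by
  unfold chd
  have h1 := F.pos_ends ht (i, true)
  have h2 := F.pos_ends ht (i, false)
  simp only [par] at h1 h2
  rw [← h1, ← h2]
  simp

theorem Flow.Good.chord {c t : ℝ} (ht : 0 < t) (h : F.Good ω c t) (i : ι) :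
    0 ≤ (conj (ω i) * chd F.ends (F.pos t) i).re ∧
    |(conj (ω i) * chd F.ends (F.pos t) i).im| ≤ c * (conj (ω i) * chd F.ends (F.pos t) i).re := by
  have h1 := h.cone ht i (x := 1) ⟨zero_le_one, le_refl _⟩
  rwa [F.chord_eq' ht i] at h1

theorem Flow.Near.chord_pos {t : ℝ} (ht : 0 < t) (h : F.Near ω t) (i : ι) :
    0 < (conj (ω i) * chd F.ends (F.pos t) i).re := by
  have hc1 := slice (F.crv i).cx ht
  rw [← F.chord_eq ht i, ← intervalIntegral.integral_const_mul]
  have hI : IntervalIntegrable (fun y => conj (ω i) * F.γx i t y) volume 0 1 := by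
    apply ContinuousOn.intervalIntegrable
    rw [uIcc_of_le zero_le_one]
    exact continuousOn_const.mul hc1
  have hre : (∫ y in (0 : ℝ)..1, conj (ω i) * F.γx i t y).re =
      ∫ y in (0 : ℝ)..1, (conj (ω i) * F.γx i t y).re :=
    (Complex.reCLM.intervalIntegral_comp_comm hI).symm
  rw [hre]
  exact intervalIntegral.integral_pos one_pos
    (Complex.continuous_re.comp_continuousOn (continuousOn_const.mul hc1))
    (fun y hy => (h.re_pos i ⟨hy.1.le, hy.2⟩).le)
    ⟨0, ⟨le_refl _, zero_le_one⟩, h.re_pos i ⟨le_refl _, zero_le_one⟩⟩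

/-- at a 3-point one end has a positive component in a given direction -/
theorem Flow.Cert.pos_end (hω : F.Cert ω) (j : J) {u : ℂ} (hu : u ≠ 0) :
    ∃ a, F.ends a = Sum.inl j ∧ 0 < (conj u * ((sg a.2 : ℂ) * ω a.1)).re := by
  classical
  obtain ⟨e₀, e₁, e₂, h01, h02, h12, hE⟩ := Finset.card_eq_three.1 (F.three j)
  have nsg : ∀ b : Bool, ‖(sg b : ℂ)‖ = 1 := by
    intro b
    cases b <;> simp [sg]
  have nS : ∀ a : ι × Bool, ‖(sg a.2 : ℂ) * ω a.1‖ = 1 := by
    intro a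
    rw [norm_mul, nsg, one_mul]
    exact hω.unit a.1
  have sS : (sg e₀.2 : ℂ) * ω e₀.1 + (sg e₁.2 : ℂ) * ω e₁.1 + (sg e₂.2 : ℂ) * ω e₂.1 = 0 := by
    have h1 := hω.sum j
    rw [hE, Finset.sum_insert (by simp [h01, h02]), Finset.sum_insert (by simp [h12]),
      Finset.sum_singleton, ← add_assoc] at h1
    exact h1
  have hmem : ∀ a ∈ ({e₀, e₁, e₂} : Finset (ι × Bool)), F.ends a = Sum.inl j := by
    intro a ha
    rw [← hE] at ha
    exact (Finset.mem_filter.1 ha).2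
  rcases pos_comp (nS e₀) (nS e₁) (nS e₂) sS hu with h | h | h
  · exact ⟨e₀, hmem e₀ (by simp), h⟩
  · exact ⟨e₁, hmem e₁ (by simp), h⟩
  · exact ⟨e₂, hmem e₂ (by simp), h⟩

theorem chd_other (E : ι × Bool → J ⊕ R) (X : J ⊕ R → ℂ) (a : ι × Bool) :
    X (E (a.1, !a.2)) - X (E a) = (sg a.2 : ℂ) * chd E X a.1 := by
  obtain ⟨i, b⟩ := a
  unfold chd
  cases b
  · simp [sg]
  · simp [sg]

/-- the highest vertex argument -/
theorem Flow.Lim.extremal (h : F.Lim ω) {u : ℂ} (hu : u ≠ 0) (C : J → Prop) (hC : ∃ j, C j)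
    (hadj : ∀ j, C j → ∀ a, F.ends a = Sum.inl j → 0 < (conj u * ((sg a.2 : ℂ) * ω a.1)).re →
      ∃ j', C j' ∧ F.ends (a.1, !a.2) = Sum.inl j') : False := by
  classical
  obtain ⟨j₀, hj₀⟩ := hC
  obtain ⟨a₀, ha₀, -⟩ := h.cert.pos_end j₀ hu
  set ρ : ι × Bool → ℝ := fun a => if 0 < (conj u * ((sg a.2 : ℂ) * ω a.1)).re then
    (conj u * ((sg a.2 : ℂ) * ω a.1)).re else 1 with hρ
  have hρ0 : ∀ a, 0 < ρ a := by
    intro a
    rw [hρ]
    simp only
    split_ifs with h1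
    · exact h1
    · exact one_pos
  obtain ⟨a₁, -, ha₁⟩ := Finset.exists_min_image (Finset.univ : Finset (ι × Bool)) ρ
    ⟨a₀, Finset.mem_univ _⟩
  have hun : 0 < ‖u‖ := norm_pos_iff.2 hu
  set c := min 1 (ρ a₁ / (2 * ‖u‖)) with hc
  have hc0 : 0 < c := lt_min one_pos (div_pos (hρ0 a₁) (by positivity))
  have hcρ : ∀ a, c * ‖u‖ < ρ a := by
    intro a
    have h1 : c ≤ ρ a₁ / (2 * ‖u‖) := min_le_right _ _
    have h2 := ha₁ a (Finset.mem_univ a)
    have h3 : c * ‖u‖ ≤ ρ a₁ / 2 := by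
      calc c * ‖u‖ ≤ ρ a₁ / (2 * ‖u‖) * ‖u‖ := mul_le_mul_of_nonneg_right h1 hun.le
        _ = ρ a₁ / 2 := by field_simp
    have h4 := hρ0 a₁
    linarith
  obtain ⟨T, hT, hgood⟩ := h.good c hc0
  have hG := hgood T le_rfl
  have hN : F.Near ω T := hG.near h.cert (min_le_left _ _) hT
  obtain ⟨j, hj, hmax⟩ := Finset.exists_max_image (Finset.univ.filter C)
    (fun j => (conj u * F.pos T (Sum.inl j)).re) ⟨j₀, Finset.mem_filter.2 ⟨Finset.mem_univ _, hj₀⟩⟩
  have hCj := (Finset.mem_filter.1 hj).2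
  obtain ⟨a, ha, hpos⟩ := h.cert.pos_end j hu
  obtain ⟨j', hCj', hj'⟩ := hadj j hCj a ha hpos
  have h1 := hmax j' (Finset.mem_filter.2 ⟨Finset.mem_univ _, hCj'⟩)
  have h2 := chd_other F.ends (F.pos T) a
  rw [hj', ha] at h2
  have h3 : (conj u * F.pos T (Sum.inl j')).re - (conj u * F.pos T (Sum.inl j)).re =
      (conj u * ((sg a.2 : ℂ) * chd F.ends (F.pos T) a.1)).re := by
    rw [← Complex.sub_re, ← mul_sub, h2]
  obtain ⟨-, h5⟩ := hG.chord hT a.1
  have h6 := hN.chord_pos hT a.1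
  set ch := conj (ω a.1) * chd F.ends (F.pos T) a.1 with hch
  have h7 : conj u * ((sg a.2 : ℂ) * chd F.ends (F.pos T) a.1) =
      (conj u * ((sg a.2 : ℂ) * ω a.1)) * ch := by
    have h8 := rot_eq (w := ω a.1) (p := chd F.ends (F.pos T) a.1) (h.cert.unit a.1)
    rw [← hch] at h8
    rw [← h8]
    ring
  rw [h7] at h3
  set z := conj u * ((sg a.2 : ℂ) * ω a.1) with hz
  have h30 : (z * ch).re = z.re * ch.re - z.im * ch.im := Complex.mul_re _ _
  rw [h30] at h3
  have hz1 : ρ a = z.re := by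
    rw [hρ]
    simp only
    rw [if_pos hpos]
  have h8 := hcρ a
  rw [hz1] at h8
  have h9 : |z.im| ≤ ‖u‖ := by
    refine (Complex.abs_im_le_norm z).trans ?_
    rw [hz, norm_mul, norm_mul, Complex.norm_conj, h.cert.unit, mul_one]
    have : ‖(sg a.2 : ℂ)‖ = 1 := by
      cases a.2 <;> simp [sg]
    rw [this, mul_one]
  have h10 : |z.im * ch.im| ≤ ‖u‖ * (c * ch.re) := by
    rw [abs_mul]
    exact mul_le_mul h9 h5 (abs_nonneg _) hun.le
  have h11 := (abs_le.1 h10).2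
  have h12 : 0 < (z.re - c * ‖u‖) * ch.re := mul_pos (by linarith) h6
  nlinarith

/-- the vertices stay in a bounded region -/
theorem Flow.Lim.bounded (h : F.Lim ω) : ∃ M : ℝ, ∀ t, 1 ≤ t → ∀ v, ‖F.pos t v‖ ≤ M := by
  classical
  have h1 : ∀ j : J, ∃ M : ℝ, ∀ t, 1 ≤ t → ‖F.pos t (Sum.inl j)‖ ≤ M := by
    by_contra hcon
    push Not at hcon
    refine h.extremal (u := 1) one_ne_zero
      (fun j => ∀ M : ℝ, ∃ t, 1 ≤ t ∧ M < ‖F.pos t (Sum.inl j)‖) hcon ?_
    intro j hj a ha _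
    have hchord : ∀ t, 1 ≤ t → ‖F.pos t (Sum.inl j)‖ ≤
        ‖F.pos t (F.ends (a.1, !a.2))‖ + F.Len 1 := by
      intro t ht
      have ht0 : 0 < t := one_pos.trans_le ht
      have h2 := chd_other F.ends (F.pos t) a
      rw [ha] at h2
      have h3 : F.pos t (Sum.inl j) = F.pos t (F.ends (a.1, !a.2)) -
          (sg a.2 : ℂ) * chd F.ends (F.pos t) a.1 := by
        rw [← h2]
        ring
      rw [h3]
      refine (norm_sub_le _ _).trans (add_le_add_right ?_ _)
      rw [norm_mul]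
      have : ‖(sg a.2 : ℂ)‖ = 1 := by
        cases a.2 <;> simp [sg]
      rw [this, one_mul]
      exact (F.chord_le ht0 a.1).trans (F.len_anti one_pos ht)
    rcases h4 : F.ends (a.1, !a.2) with j' | r
    · refine ⟨j', fun M => ?_, rfl⟩
      obtain ⟨t, ht, ht2⟩ := hj (M + F.Len 1)
      refine ⟨t, ht, ?_⟩
      have h5 := hchord t ht
      rw [h4] at h5
      linarith
    · exfalso
      obtain ⟨t, ht, ht2⟩ := hj (‖F.P r‖ + F.Len 1)
      have h5 := hchord t ht
      rw [h4] at h5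
      have h6 : F.pos t (Sum.inr r) = F.P r := rfl
      rw [h6] at h5
      linarith
  choose M hM using h1
  refine ⟨∑ j, |M j| + ∑ r, ‖F.P r‖, fun t ht v => ?_⟩
  rcases v with j | r
  · have h2 := (hM j t ht).trans (le_abs_self _)
    have h3 : |M j| ≤ ∑ j, |M j| := Finset.single_le_sum (f := fun j => |M j|)
      (fun _ _ => abs_nonneg _) (Finset.mem_univ j)
    have h4 : 0 ≤ ∑ r, ‖F.P r‖ := Finset.sum_nonneg fun _ _ => norm_nonneg _
    linarith
  · have h3 : ‖F.P r‖ ≤ ∑ r, ‖F.P r‖ := Finset.single_le_sum (f := fun r => ‖F.P r‖)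
      (fun _ _ => norm_nonneg _) (Finset.mem_univ r)
    have h4 : 0 ≤ ∑ j, |M j| := Finset.sum_nonneg fun _ _ => abs_nonneg _
    have h5 : F.pos t (Sum.inr r) = F.P r := rfl
    rw [h5]
    linarith

end

end Pool.Agent.NF
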