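import Pool.Agent.Lib_helper34.NF.Area

/-!
# Uniqueness of the limit point, convergence of the vertices
-/

set_option autoImplicit false
set_option linter.unusedSectionVars false

namespace Pool.Agent.NF

open Set Filter Topology MeasureTheory ComplexConjugate

section

variable {ι J R : Type} [Fintype ι] [DecidableEq J] [DecidableEq R] [Fintype J] [Fintype R]
  {F : Flow ι J R} {ω : ι → ℂ}

/-- properties of a limit configuration -/
structure Flow.LimPt (F : Flow ι J R) (ω : ι → ℂ) (X : J ⊕ R → ℂ) : Prop where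
  fix : ∀ r, X (Sum.inr r) = F.P r
  dir : ∀ i, ∃ l : ℝ, 0 ≤ l ∧ chd F.ends X i = (l : ℂ) * ω i

theorem Flow.Lim.unique (h : F.Lim ω) {X Y : J ⊕ R → ℂ} (hX : F.LimPt ω X) (hY : F.LimPt ω Y)
    (harea : ∀ n : ι → ℝ, Kir F.ends n → Arh F.ends n X = Arh F.ends n Y) : X = Y := by
  classical
  choose lX lX0 hlX using hX.dir
  choose lY lY0 hlY using hY.dir
  set w : J ⊕ R → ℂ := fun v => Y v - X v with hw
  have hwr : ∀ r, w (Sum.inr r) = 0 := fun r => by
    rw [hw]
    simp only
    rw [hX.fix, hY.fix, sub_self]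
  -- the normal displacement
  set n : ι → ℝ := fun i => (conj (ω i) * w (F.ends (i, false))).im with hn
  have hchd : ∀ i, w (F.ends (i, true)) = w (F.ends (i, false)) + ((lY i - lX i : ℝ) : ℂ) * ω i := by
    intro i
    have h1 := hlX i
    have h2 := hlY i
    unfold chd at h1 h2
    rw [hw]
    simp only
    push_cast
    linear_combination h2 - h1
  have hconjω : ∀ i, conj (ω i) * ω i = 1 := fun i => conj_mul_self_of_norm (h.cert.unit i)
  have hn2 : ∀ a : ι × Bool, n a.1 = (conj (ω a.1) * w (F.ends a)).im := by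
    rintro ⟨i, b⟩
    cases b
    · rfl
    · rw [hn]
      simp only
      rw [hchd i, mul_add, Complex.add_im]
      have : conj (ω i) * (((lY i - lX i : ℝ) : ℂ) * ω i) = ((lY i - lX i : ℝ) : ℂ) := by
        calc conj (ω i) * (((lY i - lX i : ℝ) : ℂ) * ω i) =
            ((lY i - lX i : ℝ) : ℂ) * (conj (ω i) * ω i) := by ring
          _ = _ := by rw [hconjω, mul_one]
      rw [this, Complex.ofReal_im, add_zero]
  have hK : Kir F.ends n := by
    constructor
    · intro j
      have h1 : ∑ a ∈ Finset.univ.filter (fun a : ι × Bool => F.ends a = Sum.inl j),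
          sg a.2 * n a.1 = (conj (∑ a ∈ Finset.univ.filter
            (fun a : ι × Bool => F.ends a = Sum.inl j), (sg a.2 : ℂ) * ω a.1) *
              w (Sum.inl j)).im := by
        rw [map_sum, Finset.sum_mul, Complex.im_sum]
        refine Finset.sum_congr rfl fun a ha => ?_
        rw [hn2 a, (Finset.mem_filter.1 ha).2, map_mul, Complex.conj_ofReal, mul_assoc,
          Complex.im_ofReal_mul]
      rw [h1, h.cert.sum j, map_zero, zero_mul, Complex.zero_im]
    · intro a r ha
      rw [hn2 a, ha, hwr r, mul_zero, Complex.zero_im]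
  -- the two identities
  have hA := harea n hK
  have hT := ends_sum F.ends (fun a => n a.1)
    (fun a => (conj (X (F.ends a)) * Y (F.ends a)).im) hK.sum
    (fun j a b ha hb => by rw [ha, hb]) (fun a r ha => by rw [hK.leaf a r ha, zero_mul])
  set hx : ι → ℝ := fun i => (conj (ω i) * X (F.ends (i, false))).im with hhx
  set hy : ι → ℝ := fun i => (conj (ω i) * Y (F.ends (i, false))).im with hhy
  have hnxy : ∀ i, n i = hy i - hx i := by
    intro i
    rw [hn, hhx, hhy, hw]
    simp only
    rw [mul_sub, Complex.sub_im]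
  have im_conj : ∀ z z' : ℂ, (conj z * z').im = -(conj z' * z).im := by
    intro z z'
    simp only [Complex.mul_im, Complex.conj_re, Complex.conj_im]
    ring
  have im_self : ∀ z : ℂ, (conj z * z).im = 0 := by
    intro z
    rw [mul_comm, Complex.mul_conj, Complex.ofReal_im]
  have eX : ∀ i, X (F.ends (i, true)) = X (F.ends (i, false)) + (lX i : ℂ) * ω i := by
    intro i
    have h1 := hlX i
    unfold chd at h1
    linear_combination h1
  have eY : ∀ i, Y (F.ends (i, true)) = Y (F.ends (i, false)) + (lY i : ℂ) * ω i := by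
    intro i
    have h1 := hlY i
    unfold chd at h1
    linear_combination h1
  have aX : ∀ i, (conj (X (F.ends (i, false))) * X (F.ends (i, true))).im = -(lX i * hx i) := by
    intro i
    rw [eX i, mul_add, Complex.add_im, im_self, zero_add]
    have : conj (X (F.ends (i, false))) * ((lX i : ℂ) * ω i) =
      (lX i : ℂ) * (conj (X (F.ends (i, false))) * ω i) := by ring
    rw [this, Complex.im_ofReal_mul, im_conj, hhx]
    ring
  have aY : ∀ i, (conj (Y (F.ends (i, false))) * Y (F.ends (i, true))).im = -(lY i * hy i) := by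
    intro i
    rw [eY i, mul_add, Complex.add_im, im_self, zero_add]
    have : conj (Y (F.ends (i, false))) * ((lY i : ℂ) * ω i) =
      (lY i : ℂ) * (conj (Y (F.ends (i, false))) * ω i) := by ring
    rw [this, Complex.im_ofReal_mul, im_conj, hhy]
    ring
  have aT : ∀ i, (conj (X (F.ends (i, true))) * Y (F.ends (i, true))).im -
      (conj (X (F.ends (i, false))) * Y (F.ends (i, false))).im =
      lX i * hy i - lY i * hx i := by
    intro i
    rw [eX i, eY i, map_add, map_mul, Complex.conj_ofReal]
    have e1 : (conj (X (F.ends (i, false))) + (lX i : ℂ) * conj (ω i)) *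
        (Y (F.ends (i, false)) + (lY i : ℂ) * ω i) =
        conj (X (F.ends (i, false))) * Y (F.ends (i, false)) +
        (lY i : ℂ) * (conj (X (F.ends (i, false))) * ω i) +
        (lX i : ℂ) * (conj (ω i) * Y (F.ends (i, false))) +
        ((lX i * lY i : ℝ) : ℂ) * (conj (ω i) * ω i) := by
      push_cast
      ring
    rw [e1, Complex.add_im, Complex.add_im, Complex.add_im, Complex.im_ofReal_mul,
      Complex.im_ofReal_mul, Complex.im_ofReal_mul, im_self, im_conj (X (F.ends (i, false))) (ω i),
      hhx, hhy]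
    ring
  have key : ∑ i, n i ^ 2 * (lX i + lY i) = 0 := by
    have h1 : ∑ i, n i ^ 2 * (lX i + lY i) =
        2 * (Arh F.ends n X - Arh F.ends n Y) +
        ∑ i, (n i * (conj (X (F.ends (i, true))) * Y (F.ends (i, true))).im -
          n i * (conj (X (F.ends (i, false))) * Y (F.ends (i, false))).im) := by
      unfold Arh
      rw [← Finset.sum_sub_distrib, Finset.mul_sum, ← Finset.sum_add_distrib]
      refine Finset.sum_congr rfl fun i _ => ?_
      rw [← mul_sub (n i) ((conj (X (F.ends (i, true))) * Y (F.ends (i, true))).im), aT, aX, aY]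
      rw [hnxy i]
      ring
    rw [h1, hA, sub_self, mul_zero, zero_add]
    exact hT
  have key2 : ∀ i, n i ≠ 0 → lX i = 0 ∧ lY i = 0 := by
    intro i hi
    have h1 := (Finset.sum_eq_zero_iff_of_nonneg (fun i _ => by
      have := lX0 i
      have := lY0 i
      positivity)).1 key i (Finset.mem_univ i)
    rcases mul_eq_zero.1 h1 with h2 | h2
    · exact absurd (pow_eq_zero_iff (by norm_num) |>.1 h2) hi
    · exact ⟨by linarith [lX0 i, lY0 i], by linarith [lX0 i, lY0 i]⟩
  -- the highest vertex argument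
  have hw0 : ∀ j : J, w (Sum.inl j) = 0 := by
    by_contra hcon
    push Not at hcon
    obtain ⟨j₀, hj₀⟩ := hcon
    set W := w (Sum.inl j₀) with hWdef
    have hu : Complex.I * W ≠ 0 := mul_ne_zero Complex.I_ne_zero hj₀
    refine h.extremal hu (fun j => w (Sum.inl j) = W) ⟨j₀, rfl⟩ ?_
    intro j hj a ha hpos
    have hna : n a.1 ≠ 0 := by
      rw [hn2 a, ha, hj]
      intro h0
      have h1 : conj (Complex.I * W) * ((sg a.2 : ℂ) * ω a.1) =
          (sg a.2 : ℂ) * (-Complex.I * (conj W * ω a.1)) := by
        rw [map_mul, Complex.conj_I]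
        ring
      rw [h1, Complex.re_ofReal_mul] at hpos
      have h2 : (-Complex.I * (conj W * ω a.1)).re = (conj W * ω a.1).im := by
        simp
      rw [h2, im_conj, h0, neg_zero, mul_zero] at hpos
      exact lt_irrefl _ hpos
    obtain ⟨l1, l2⟩ := key2 a.1 hna
    have hother : w (F.ends (a.1, !a.2)) = W := by
      have h1 := chd_other F.ends w a
      have h2 : chd F.ends w a.1 = 0 := by
        unfold chd
        rw [hchd a.1, l1, l2, sub_zero]
        simp
      rw [h2, mul_zero, ha, hj] at h1
      exact sub_eq_zero.1 h1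
    rcases h3 : F.ends (a.1, !a.2) with j' | r
    · exact ⟨j', by rw [← h3]; exact hother, rfl⟩
    · exfalso
      rw [h3, hwr r] at hother
      exact hj₀ hother.symm
  funext v
  have hv : w v = 0 := by
    rcases v with j | r
    · exact hw0 j
    · exact hwr r
  exact (sub_eq_zero.1 hv).symm

theorem cont_chd (E : ι × Bool → J ⊕ R) (i : ι) :
    Continuous (fun X : J ⊕ R → ℂ => chd E X i) := by
  unfold chd
  exact (continuous_apply _).sub (continuous_apply _)

theorem cluster_eq {X : J ⊕ R → ℂ} {f : ℝ → J ⊕ R → ℂ} (hX : MapClusterPt X atTop f)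
    {E : Type*} [TopologicalSpace E] [T2Space E] {Φ : (J ⊕ R → ℂ) → E} (hΦ : Continuous Φ) {c : E}
    (hc : Tendsto (fun t => Φ (f t)) atTop (𝓝 c)) : Φ X = c := by
  have h1 : MapClusterPt (Φ X) atTop (Φ ∘ f) := hX.continuousAt_comp hΦ.continuousAt
  have h2 : ClusterPt (Φ X) (𝓝 c) := ClusterPt.mono h1 hc
  exact eq_of_nhds_neBot h2

theorem Flow.Lim.im_chd (h : F.Lim ω) (i : ι) :
    Tendsto (fun t => (conj (ω i) * chd F.ends (F.pos t) i).im) atTop (𝓝 0) := by
  rw [Metric.tendsto_atTop]
  intro ε hε
  have hL0 := F.len_nonneg 1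
  obtain ⟨T, hT, hgood⟩ := h.good (ε / (F.Len 1 + 1)) (by positivity)
  refine ⟨max T 1, fun t ht => ?_⟩
  have t0 : T ≤ t := (le_max_left _ _).trans ht
  have t1 : 1 ≤ t := (le_max_right _ _).trans ht
  have ht0 : 0 < t := one_pos.trans_le t1
  obtain ⟨h1, h2⟩ := (hgood t t0).chord ht0 i
  rw [Real.dist_eq, sub_zero]
  refine h2.trans_lt ?_
  have h3 : (conj (ω i) * chd F.ends (F.pos t) i).re ≤ F.Len 1 := by
    refine (Complex.re_le_norm _).trans ?_
    rw [h.cert.norm_rot i]
    exact (F.chord_le ht0 i).trans (F.len_anti one_pos t1)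
  calc ε / (F.Len 1 + 1) * (conj (ω i) * chd F.ends (F.pos t) i).re ≤
        ε / (F.Len 1 + 1) * F.Len 1 := mul_le_mul_of_nonneg_left h3 (by positivity)
    _ < ε := by
        rw [div_mul_eq_mul_div, div_lt_iff₀ (by positivity)]
        nlinarith

theorem Flow.Lim.limPt (h : F.Lim ω) {X : J ⊕ R → ℂ} (hX : MapClusterPt X atTop F.pos) :
    F.LimPt ω X := by
  constructor
  · intro r
    exact cluster_eq hX (Φ := fun Y : J ⊕ R → ℂ => Y (Sum.inr r)) (continuous_apply _)
      tendsto_const_nhds
  · intro i
    have hc : Continuous (fun X : J ⊕ R → ℂ => conj (ω i) * chd F.ends X i) :=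
      continuous_const.mul (cont_chd F.ends i)
    have him : (conj (ω i) * chd F.ends X i).im = 0 :=
      cluster_eq hX (Complex.continuous_im.comp hc) (h.im_chd i)
    have hre : 0 ≤ (conj (ω i) * chd F.ends X i).re := by
      by_contra hcon
      push Not at hcon
      obtain ⟨T, hT, hgood⟩ := h.good 1 one_pos
      have h1 : ∀ᶠ Y in 𝓝 X, (conj (ω i) * chd F.ends Y i).re < 0 :=
        (Complex.continuous_re.comp hc).continuousAt.eventually (gt_mem_nhds hcon)
      have h2 := hX.frequently h1
      have h3 : ∀ᶠ t in atTop, 0 ≤ (conj (ω i) * chd F.ends (F.pos t) i).re := by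
        filter_upwards [eventually_ge_atTop T] with t ht
        exact ((hgood t ht).chord (hT.trans_le ht) i).1
      obtain ⟨t, ht1, ht2⟩ := (h2.and_eventually h3).exists
      linarith
    refine ⟨(conj (ω i) * chd F.ends X i).re, hre, ?_⟩
    have h4 := rot_eq (w := ω i) (p := chd F.ends X i) (h.cert.unit i)
    have h5 : conj (ω i) * chd F.ends X i = ((conj (ω i) * chd F.ends X i).re : ℂ) := by
      apply Complex.ext
      · simp
      · rw [him, Complex.ofReal_im]
    rw [h5] at h4
    rw [mul_comm, h4]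

theorem cont_Arh (E : ι × Bool → J ⊕ R) (n : ι → ℝ) :
    Continuous (fun X : J ⊕ R → ℂ => Arh E n X) := by
  unfold Arh
  refine continuous_finsetSum _ fun i _ => continuous_const.mul (continuous_const.mul ?_)
  exact Complex.continuous_im.comp ((Complex.continuous_conj.comp (continuous_apply _)).mul
    (continuous_apply _))

/-- the positions of the vertices converge -/
theorem Flow.Lim.pos_conv (h : F.Lim ω) : ∃ X : J ⊕ R → ℂ, F.LimPt ω X ∧
    Tendsto F.pos atTop (𝓝 X) := by
  obtain ⟨M, hM⟩ := h.bounded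
  set K : Set (J ⊕ R → ℂ) := Metric.closedBall 0 (max M 0) with hK
  have hKc : IsCompact K := isCompact_closedBall _ _
  have hmem : ∀ᶠ t in atTop, F.pos t ∈ K := by
    filter_upwards [eventually_ge_atTop (1 : ℝ)] with t ht
    rw [hK, mem_closedBall_zero_iff, pi_norm_le_iff_of_nonneg (le_max_right _ _)]
    exact fun v => (hM t ht v).trans (le_max_left _ _)
  obtain ⟨X, hXK, hX⟩ := hKc.exists_mapClusterPt (tendsto_principal.2 hmem)
  refine ⟨X, h.limPt hX, hKc.tendsto_nhds_of_unique_mapClusterPt hmem fun Y _ hY => ?_⟩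
  refine h.unique (h.limPt hY) (h.limPt hX) fun n hn => ?_
  obtain ⟨c, hc⟩ := h.arh_conv hn
  rw [cluster_eq hX (cont_Arh F.ends n) hc, cluster_eq hY (cont_Arh F.ends n) hc]

end

end Pool.Agent.NF
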